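import Pool.Agent.H51.CC.Sys
import Pool.Agent.H51.PG.Main

/-! From partitionable graphs without weak pairs to the abstract systems `PSys`. -/

namespace Pool.Agent.H51.CC

open Finset Pool.Agent.H51.PG

section

variable {V : Type*} [Fintype V] {G : SimpleGraph V} {p q : ℕ}

theorem meet_un {K S : Finset V} (hK : G.IsClique (K : Set V)) (hS : G.IsIndepSet (S : Set V))
    {x y : V} (hx : x ∈ K) (hy : y ∈ K) (hx' : x ∈ S) (hy' : y ∈ S) : x = y := by
  by_contra hne
  exact hS hx' hy' hne (hK hx hy hne)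

variable [DecidableEq V]

theorem inter_card_le {K S : Finset V} (hK : G.IsClique (K : Set V))
    (hS : G.IsIndepSet (S : Set V)) : (K ∩ S).card ≤ 1 := by
  rw [card_le_one]
  intro a ha b hb
  rw [mem_inter] at ha hb
  exact meet_un hK hS ha.1 hb.1 ha.2 hb.2

/-- sizes of cliques -/
theorem clique_le (hG : Partitionable G p q) {K : Finset V} (hK : G.IsClique (K : Set V)) :
    K.card ≤ q := by
  obtain ⟨hp, hq, hc, hpart⟩ := hG
  by_contra hcon
  obtain ⟨K', hK'1, hK'2⟩ := exists_subset_card_eq (show q + 1 ≤ K.card by omega)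
  have hlt : K'.card < Fintype.card V := by
    rw [hK'2, hc]
    nlinarith
  obtain ⟨v, hv⟩ : ∃ v, v ∉ K' := by
    by_contra h
    push Not at h
    have : K' = univ := eq_univ_of_forall h
    rw [this, card_univ] at hlt
    omega
  obtain ⟨-, S, hS, hcov⟩ := hpart v
  have hf : ∀ x ∈ K', ∃ j, x ∈ S j := fun x hx => (hcov x (fun h => hv (h ▸ hx))).exists
  haveI : Nonempty (Fin q) := ⟨⟨0, by omega⟩⟩
  choose! f hf using hf
  have h1 : K'.card ≤ (univ : Finset (Fin q)).card := by
    refine card_le_card_of_injOn f (fun x _ => mem_coe.mpr (mem_univ _)) ?_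
    intro x hx y hy hxy
    have hx' : x ∈ K' := mem_coe.mp hx
    have hy' : y ∈ K' := mem_coe.mp hy
    exact meet_un hK (hS (f x)).1.isIndepSet (hK'1 hx') (hK'1 hy') (hf x hx')
      (hxy ▸ hf y hy')
  rw [hK'2, card_univ, Fintype.card_fin] at h1
  omega

/-- complement -/
theorem Partitionable.compl (hG : Partitionable G p q) : Partitionable Gᶜ q p := by
  obtain ⟨hp, hq, hc, hpart⟩ := hG
  refine ⟨hq, hp, by rw [hc, Nat.mul_comm], ?_⟩
  intro v
  obtain ⟨⟨C, hC1, hC2⟩, ⟨S, hS1, hS2⟩⟩ := hpart v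
  refine ⟨⟨S, fun i => ⟨?_, (hS1 i).2⟩, hS2⟩, ⟨C, fun i => ⟨?_, (hC1 i).2⟩, hC2⟩⟩
  · rw [SimpleGraph.isNClique_compl]; exact (hS1 i).1
  · rw [SimpleGraph.isNIndepSet_compl]; exact (hC1 i).1

theorem exists_clique (hG : Partitionable G p q) : ∃ K, G.IsNClique q K := by
  obtain ⟨hp, hq, hc, hpart⟩ := hG
  have : 0 < Fintype.card V := by rw [hc]; omega
  obtain ⟨v⟩ := Fintype.card_pos_iff.mp this
  obtain ⟨⟨C, hC1, -⟩, -⟩ := hpart v
  exact ⟨C ⟨0, by omega⟩, (hC1 _).1⟩

theorem max_iff (hG : Partitionable G p q) {K : Finset V} :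
    G.IsMaximumClique K ↔ G.IsNClique q K := by
  constructor
  · intro h
    obtain ⟨K0, hK0⟩ := exists_clique hG
    have h1 := h.maximum K0 hK0.isClique
    rw [hK0.card_eq] at h1
    exact ⟨h.isClique, le_antisymm (clique_le hG h.isClique) h1⟩
  · intro h
    exact ⟨h.isClique, fun K' hK' => by rw [h.card_eq]; exact clique_le hG hK'⟩

/-- a stable set through `v` misses a clique of the partition of `G - v` -/
theorem miss {v : V} {C : Fin p → Finset V} (hC : ∀ i, G.IsNClique q (C i) ∧ v ∉ C i)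
    (hcov : ∀ x, x ≠ v → ∃! i, x ∈ C i) {S : Finset V} (hS : G.IsNIndepSet p S) (hv : v ∈ S)
    (hp : 2 ≤ p) : ∃ i, Disjoint (C i) S := by
  by_contra hcon
  push Not at hcon
  have hf : ∀ i, ∃ x, x ∈ C i ∧ x ∈ S := by
    intro i
    obtain ⟨x, hx⟩ := not_disjoint_iff.mp (hcon i)
    exact ⟨x, hx⟩
  choose f hf using hf
  have h1 : (univ : Finset (Fin p)).card ≤ (S.erase v).card := by
    refine card_le_card_of_injOn f ?_ ?_
    · intro i _
      refine mem_coe.mpr (mem_erase.mpr ⟨fun h => (hC i).2 (h ▸ (hf i).1), (hf i).2⟩)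
    · intro i _ j _ hij
      have h2 : f i ≠ v := fun h => (hC i).2 (h ▸ (hf i).1)
      exact (hcov (f i) h2).unique (hf i).1 (by rw [hij]; exact (hf j).1)
  rw [card_univ, Fintype.card_fin, card_erase_of_mem hv, hS.card_eq] at h1
  omega

/-- a stable set avoiding `v` meets every clique of the partition of `G - v` -/
theorem hit {v : V} {C : Fin p → Finset V} (hC : ∀ i, G.IsNClique q (C i) ∧ v ∉ C i)
    (hcov : ∀ x, x ≠ v → ∃! i, x ∈ C i) {S : Finset V} (hS : G.IsNIndepSet p S) (hv : v ∉ S)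
    (i : Fin p) : ¬ Disjoint (C i) S := by
  intro hdis
  have hf : ∀ x ∈ S, ∃ j, x ∈ C j := fun x hx => (hcov x (fun h => hv (h ▸ hx))).exists
  haveI : Nonempty (Fin p) := ⟨i⟩
  choose! f hf using hf
  have h1 : S.card ≤ (univ.erase i : Finset (Fin p)).card := by
    refine card_le_card_of_injOn f ?_ ?_
    · intro x hx
      have hx' : x ∈ S := mem_coe.mp hx
      refine mem_coe.mpr (mem_erase.mpr ⟨?_, mem_univ _⟩)
      intro h
      exact disjoint_left.mp hdis (h ▸ hf x hx') hx'
    · intro x hx y hy hxy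
      have hx' : x ∈ S := mem_coe.mp hx
      have hy' : y ∈ S := mem_coe.mp hy
      exact meet_un (hC (f x)).1.isClique hS.isIndepSet (hf x hx') (hxy ▸ hf y hy') hx' hy'
  rw [hS.card_eq, card_erase_of_mem (mem_univ _), card_univ, Fintype.card_fin] at h1
  have := i.2
  omega

/-- every maximum stable set misses a maximum clique -/
theorem exists_miss (hG : Partitionable G p q) {S : Finset V} (hS : G.IsNIndepSet p S) :
    ∃ K, G.IsNClique q K ∧ Disjoint K S := by
  obtain ⟨hp, hq, hc, hpart⟩ := hG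
  have : S.Nonempty := card_pos.mp (by rw [hS.card_eq]; omega)
  obtain ⟨v, hv⟩ := this
  obtain ⟨⟨C, hC1, hC2⟩, -⟩ := hpart v
  obtain ⟨i, hi⟩ := miss hC1 hC2 hS hv hp
  exact ⟨C i, (hC1 i).1, hi⟩

/-- the family of stable sets built from a stable set `S0` -/
theorem family (hG : Partitionable G p q) {S0 : Finset V} (hS0 : G.IsNIndepSet p S0) :
    ∃ F : Option ({s // s ∈ S0} × Fin q) → Finset V, F none = S0 ∧
      (∀ i, G.IsNIndepSet p (F i)) ∧
      ∀ v, (univ.filter (fun i => v ∈ F i)).card = p := by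
  obtain ⟨hp, hq, hc, hpart⟩ := hG
  choose hp1 S hS hcov using hpart
  refine ⟨fun o => o.elim S0 (fun z => S z.1.1 z.2), rfl, ?_, ?_⟩
  · rintro (_ | ⟨s, j⟩)
    · exact hS0
    · exact (hS s.1 j).1
  · intro v
    -- the pairs
    have hpairs : (univ.filter (fun z : {s // s ∈ S0} × Fin q => v ∈ S z.1.1 z.2)).card
        = (univ.filter (fun s : {s // s ∈ S0} => s.1 ≠ v)).card := by
      refine card_bij (fun z _ => z.1) ?_ ?_ ?_
      · rintro ⟨s, j⟩ hz
        rw [mem_filter] at hz ⊢
        refine ⟨mem_univ _, ?_⟩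
        intro h
        have h2 : v ∈ S s.1 j := hz.2
        rw [← h] at h2
        exact (hS s.1 j).2 h2
      · rintro ⟨s, j⟩ hz ⟨s', j'⟩ hz' h
        simp only [mem_filter, mem_univ, true_and] at hz hz' h
        subst h
        have hne : v ≠ s.1 := fun h => (hS s.1 j).2 (h ▸ hz)
        have := (hcov s.1 v hne).unique hz hz'
        subst this
        rfl
      · intro s hs
        rw [mem_filter] at hs
        obtain ⟨j, hj, -⟩ := hcov s.1 v (Ne.symm hs.2)
        exact ⟨(s, j), by rw [mem_filter]; exact ⟨mem_univ _, hj⟩, rfl⟩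
    have hcount : (univ.filter (fun s : {s // s ∈ S0} => s.1 ≠ v)).card
        = (S0.erase v).card := by
      refine card_bij (fun s _ => s.1) ?_ ?_ ?_
      · intro s hs
        rw [mem_filter] at hs
        exact mem_erase.mpr ⟨hs.2, s.2⟩
      · intro s _ s' _ h
        exact Subtype.ext h
      · intro x hx
        rw [mem_erase] at hx
        exact ⟨⟨x, hx.2⟩, by rw [mem_filter]; exact ⟨mem_univ _, hx.1⟩, rfl⟩
    have hsplit : univ.filter (fun i : Option ({s // s ∈ S0} × Fin q) =>
        v ∈ i.elim S0 (fun z => S z.1.1 z.2)) =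
        (if v ∈ S0 then {none} else ∅) ∪
          (univ.filter (fun z : {s // s ∈ S0} × Fin q => v ∈ S z.1.1 z.2)).map
            Function.Embedding.some := by
      ext i
      rcases i with _ | z
      · by_cases hv : v ∈ S0 <;> simp [hv]
      · by_cases hv : v ∈ S0 <;> simp [hv]
    show (univ.filter (fun i : Option ({s // s ∈ S0} × Fin q) =>
        v ∈ i.elim S0 (fun z => S z.1.1 z.2))).card = p
    rw [hsplit, card_union_of_disjoint, card_map, hpairs, hcount]
    · by_cases hv : v ∈ S0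
      · simp only [hv, if_true, card_singleton]
        rw [card_erase_of_mem hv, hS0.card_eq]
        omega
      · simp only [hv, if_false, card_empty]
        rw [erase_eq_of_notMem hv, hS0.card_eq]
        omega
    · rw [disjoint_left]
      intro i hi hi'
      split_ifs at hi
      · rw [mem_singleton] at hi
        subst hi
        simp at hi'
      · simp at hi

end

end Pool.Agent.H51.CC
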