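import Pool.Agent.H51.CC.Bridge

/-! Mates in partitionable graphs. -/

namespace Pool.Agent.H51.CC

open Finset Pool.Agent.H51.PG

section

variable {V : Type*} [Fintype V] [DecidableEq V] {G : SimpleGraph V} {p q : ℕ}

theorem inter_eq_one {K S : Finset V} (hK : G.IsClique (K : Set V))
    (hS : G.IsIndepSet (S : Set V)) (h : ¬ Disjoint K S) : (K ∩ S).card = 1 := by
  have h1 := inter_card_le hK hS
  have h2 : (K ∩ S).Nonempty := by
    rw [nonempty_iff_ne_empty]
    intro h3
    exact h (disjoint_iff_inter_eq_empty.mpr h3)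
  have := card_pos.mpr h2
  omega

/-- double counting: a clique of size `q` misses exactly one member of the family -/
theorem one_miss {I : Type*} [Fintype I] [DecidableEq I] {F : I → Finset V}
    (hcI : Fintype.card I = p * q + 1) (hF : ∀ i, G.IsNIndepSet p (F i))
    (hcov : ∀ v, (univ.filter (fun i => v ∈ F i)).card = p) {K : Finset V}
    (hK : G.IsNClique q K) : ∃! i, Disjoint K (F i) := by
  have h1 : ∑ i, (K ∩ F i).card = p * q := by
    have h2 : ∀ i, (K ∩ F i).card = (K.filter (fun v => v ∈ F i)).card := by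
      intro i
      rw [filter_mem_eq_inter]
    simp_rw [h2]
    have h3 : ∑ v ∈ K, (univ.filter (fun i => v ∈ F i)).card
        = ∑ i, (K.filter (fun v => v ∈ F i)).card :=
      sum_card_bipartiteAbove_eq_sum_card_bipartiteBelow (fun v i => v ∈ F i)
    rw [← h3, sum_congr rfl (fun v _ => hcov v), sum_const, hK.card_eq, smul_eq_mul,
      Nat.mul_comm]
  have h2 : ∀ i, (K ∩ F i).card = if Disjoint K (F i) then 0 else 1 := by
    intro i
    split_ifs with h
    · rw [disjoint_iff_inter_eq_empty.mp h, card_empty]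
    · exact inter_eq_one hK.isClique (hF i).isIndepSet h
  have h3 : (univ.filter (fun i => ¬ Disjoint K (F i))).card = p * q := by
    rw [← h1, sum_congr rfl (fun i _ => h2 i), card_filter]
    refine sum_congr rfl (fun i _ => ?_)
    by_cases h : Disjoint K (F i) <;> simp [h]
  have h4 := card_filter_add_card_filter_not (s := (univ : Finset I))
    (fun i => Disjoint K (F i))
  rw [h3, card_univ, hcI] at h4
  have h5 : (univ.filter (fun i => Disjoint K (F i))).card = 1 := by omega
  obtain ⟨i, hi⟩ := card_eq_one.mp h5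
  refine ⟨i, ?_, ?_⟩
  · have : i ∈ univ.filter (fun i => Disjoint K (F i)) := by rw [hi]; exact mem_singleton_self _
    exact (mem_filter.mp this).2
  · intro j hj
    have : j ∈ univ.filter (fun i => Disjoint K (F i)) := mem_filter.mpr ⟨mem_univ _, hj⟩
    rw [hi] at this
    exact mem_singleton.mp this

theorem card_index (hG : Partitionable G p q) {S0 : Finset V} (hS0 : G.IsNIndepSet p S0) :
    Fintype.card (Option ({s // s ∈ S0} × Fin q)) = p * q + 1 := by
  rw [Fintype.card_option, Fintype.card_prod, Fintype.card_fin, Fintype.card_coe, hS0.card_eq]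

theorem clique_unique_aux (hG : Partitionable G p q) {I : Type*} [Fintype I] [DecidableEq I]
    {F : I → Finset V} {i0 : I} (hcI : Fintype.card I = p * q + 1)
    (hF : ∀ i, G.IsNIndepSet p (F i))
    (hcov : ∀ v, (univ.filter (fun i => v ∈ F i)).card = p)
    {K K' : Finset V} (hK : G.IsNClique q K) (hK' : G.IsNClique q K') (h : Disjoint K (F i0))
    (h' : Disjoint K' (F i0)) : K = K' := by
  have hcV : Fintype.card V = p * q + 1 := hG.2.2.1
  have hKi : ∀ i, ∃ L, G.IsNClique q L ∧ Disjoint L (F i) := fun i => exists_miss hG (hF i)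
  choose L hL hLd using hKi
  have hmeet : ∀ i j, (((L j).filter (fun v => v ∈ F i)).card : ℚ) = if i = j then 0 else 1 := by
    intro i j
    rw [filter_mem_eq_inter]
    split_ifs with hij
    · subst hij
      rw [disjoint_iff_inter_eq_empty.mp (hLd i), card_empty, Nat.cast_zero]
    · rw [inter_eq_one (hL j).isClique (hF i).isIndepSet, Nat.cast_one]
      intro hd
      exact hij ((one_miss hcI hF hcov (hL j)).unique hd (hLd j))
  let f : (V → ℚ) →ₗ[ℚ] (I → ℚ) :=
    { toFun := fun x i => ∑ v ∈ F i, x v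
      map_add' := fun x y => by ext i; simp [sum_add_distrib]
      map_smul' := fun c x => by ext i; simp [mul_sum] }
  have hsurj : Function.Surjective f := by
    intro y
    have hp0 : (p : ℚ) ≠ 0 := by
      have h1 := hG.1
      exact_mod_cast (show p ≠ 0 by omega)
    have hq0 : (q : ℚ) ≠ 0 := by
      have h1 := hG.2.1
      exact_mod_cast (show q ≠ 0 by omega)
    refine ⟨fun v => ∑ j, ((∑ i, y i) / (p * q) - y j) * (if v ∈ L j then 1 else 0), ?_⟩
    ext i
    show ∑ v ∈ F i, ∑ j, ((∑ i, y i) / (p * q) - y j) * (if v ∈ L j then (1 : ℚ) else 0) = y i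
    rw [sum_comm]
    have h1 : ∀ j, ∑ v ∈ F i, ((∑ i, y i) / (p * q) - y j) * (if v ∈ L j then (1 : ℚ) else 0)
        = ((∑ i, y i) / (p * q) - y j) - (if i = j then ((∑ i, y i) / (p * q) - y j) else 0) := by
      intro j
      rw [← mul_sum, ← sum_filter, sum_const, nsmul_eq_mul, mul_one]
      have e : (F i).filter (fun v => v ∈ L j) = (L j).filter (fun v => v ∈ F i) := by
        ext x; simp [and_comm]
      rw [e, hmeet i j]
      split_ifs <;> ring
    rw [sum_congr rfl (fun j _ => h1 j), sum_sub_distrib, sum_ite_eq, if_pos (mem_univ _),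
      sum_sub_distrib, sum_const, card_univ, hcI, nsmul_eq_mul]
    push_cast
    generalize (∑ i, y i) = s
    field_simp
    ring
  have hinj : Function.Injective f := by
    refine (LinearMap.injective_iff_surjective_of_finrank_eq_finrank ?_).mpr hsurj
    rw [Module.finrank_fintype_fun_eq_card, Module.finrank_fintype_fun_eq_card, hcI, hcV]
  have hone : ∀ {M : Finset V}, G.IsNClique q M → Disjoint M (F i0) → ∀ i,
      (f (fun v => if v ∈ M then 1 else 0)) i = if i = i0 then 0 else 1 := by
    intro M hM hMd i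
    show ∑ v ∈ F i, (if v ∈ M then (1 : ℚ) else 0) = _
    rw [← sum_filter, sum_const, nsmul_eq_mul, mul_one]
    have e : (F i).filter (fun v => v ∈ M) = M ∩ F i := by ext x; simp [and_comm]
    rw [e]
    split_ifs with h1
    · subst h1
      rw [disjoint_iff_inter_eq_empty.mp hMd, card_empty, Nat.cast_zero]
    · rw [inter_eq_one hM.isClique (hF i).isIndepSet, Nat.cast_one]
      intro hd
      exact h1 ((one_miss hcI hF hcov hM).unique hd hMd)
  have heq : (fun v => if v ∈ K then (1 : ℚ) else 0) = fun v => if v ∈ K' then 1 else 0 := by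
    refine hinj ?_
    ext i
    rw [hone hK h, hone hK' h']
  ext v
  have := congrFun heq v
  by_cases h1 : v ∈ K <;> by_cases h2 : v ∈ K' <;> simp [h1, h2] at this ⊢

/-- the clique missing a maximum stable set is unique -/
theorem clique_unique (hG : Partitionable G p q) {S0 : Finset V} (hS0 : G.IsNIndepSet p S0)
    {K K' : Finset V} (hK : G.IsNClique q K) (hK' : G.IsNClique q K') (h : Disjoint K S0)
    (h' : Disjoint K' S0) : K = K' := by
  obtain ⟨F, hF0, hF, hcov⟩ := family hG hS0
  refine clique_unique_aux hG (i0 := none) (card_index hG hS0) hF hcov hK hK' ?_ ?_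
  · rw [hF0]; exact h
  · rw [hF0]; exact h'

/-- the maximum stable set missing a maximum clique -/
theorem stable_exists (hG : Partitionable G p q) {K : Finset V} (hK : G.IsNClique q K) :
    ∃ S, G.IsNIndepSet p S ∧ Disjoint K S := by
  obtain ⟨S, hS, hd⟩ := exists_miss (Partitionable.compl hG)
    (S := K) (by rw [SimpleGraph.isNIndepSet_compl]; exact hK)
  rw [SimpleGraph.isNClique_compl] at hS
  exact ⟨S, hS, hd.symm⟩

theorem stable_unique (hG : Partitionable G p q) {K : Finset V} (hK : G.IsNClique q K)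
    {S S' : Finset V} (hS : G.IsNIndepSet p S) (hS' : G.IsNIndepSet p S')
    (h : Disjoint K S) (h' : Disjoint K S') : S = S' := by
  refine clique_unique (Partitionable.compl hG) (S0 := K) ?_ ?_ ?_ h.symm h'.symm
  · rw [SimpleGraph.isNIndepSet_compl]; exact hK
  · rw [SimpleGraph.isNClique_compl]; exact hS
  · rw [SimpleGraph.isNClique_compl]; exact hS'

noncomputable instance : Fintype {K : Finset V // G.IsNClique q K} := by
  classical
  exact Subtype.fintype _

theorem exists_sys (hG : Partitionable G p q) (hw : NoWeakPair G) :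
    ∃ P : PSys V {K : Finset V // G.IsNClique q K} p q,
      (∀ i, P.C i = i.1) ∧ (∀ i, G.IsNIndepSet p (P.S i)) ∧
      (∀ S, G.IsNIndepSet p S → ∃ i, P.S i = S) ∧
      ∀ u v, u ≠ v → (G.Adj u v ↔ P.Adj u v) := by
  classical
  have hex : ∀ i : {K : Finset V // G.IsNClique q K}, ∃ S, G.IsNIndepSet p S ∧ Disjoint i.1 S :=
    fun i => stable_exists hG i.2
  choose S hS hd using hex
  have hp := hG.1
  have hq := hG.2.1
  have hcV : Fintype.card V = p * q + 1 := hG.2.2.1
  have hun : ∀ (i j : {K : Finset V // G.IsNClique q K}), ¬ (i = j) →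
      ¬ Disjoint i.1 (S j) := by
    intro i j hij hdis
    exact hij (Subtype.ext (clique_unique hG (hS j) i.2 j.2 hdis (hd j)))
  have hsurj : ∀ T, G.IsNIndepSet p T → ∃ i, S i = T := by
    intro T hT
    obtain ⟨K, hK, hKT⟩ := exists_miss hG hT
    exact ⟨⟨K, hK⟩, stable_unique hG hK (hS _) hT (hd ⟨K, hK⟩) hKT⟩
  -- partitions of `G - v`
  have hpartv : ∀ v, ∃ C : Fin p → {K : Finset V // G.IsNClique q K},
      Function.Injective C ∧ (∀ l, v ∈ S (C l)) ∧ (∀ l, v ∉ (C l).1) ∧
      (∀ x, x ≠ v → ∃! l, x ∈ (C l).1) ∧ ∀ i, v ∈ S i → ∃ l, C l = i := by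
    intro v
    obtain ⟨⟨C, hC1, hC2⟩, -⟩ := hG.2.2.2 v
    refine ⟨fun l => ⟨C l, (hC1 l).1⟩, ?_, ?_, fun l => (hC1 l).2, hC2, ?_⟩
    · intro l l' hll
      have h1 : C l = C l' := congrArg Subtype.val hll
      have h2 : (C l).Nonempty := card_pos.mp (by rw [(hC1 l).1.card_eq]; omega)
      obtain ⟨x, hx⟩ := h2
      exact (hC2 x (fun h => (hC1 l).2 (h ▸ hx))).unique hx (h1 ▸ hx)
    · intro l
      by_contra hv
      exact hit hC1 hC2 (hS ⟨C l, (hC1 l).1⟩) hv l (hd ⟨C l, (hC1 l).1⟩)
    · intro i hi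
      obtain ⟨l, hl⟩ := miss hC1 hC2 (hS i) hi hp
      exact ⟨l, Subtype.ext (clique_unique hG (hS i) (hC1 l).1 i.2 hl (hd i))⟩
  have hpex : ∀ u v, u ≠ v → ∃ i : {K : Finset V // G.IsNClique q K}, u ∈ i.1 ∧ v ∈ S i := by
    intro u v huv
    obtain ⟨C, -, h2, -, h4, -⟩ := hpartv v
    obtain ⟨l, hl, -⟩ := h4 u huv
    exact ⟨C l, hl, h2 l⟩
  have hpun : ∀ (u v : V) (i j : {K : Finset V // G.IsNClique q K}), u ∈ i.1 → v ∈ S i →
      u ∈ j.1 → v ∈ S j → i = j := by
    intro u v i j h1 h2 h3 h4
    obtain ⟨C, -, -, h6, h7, h8⟩ := hpartv v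
    obtain ⟨l, rfl⟩ := h8 i h2
    obtain ⟨l', rfl⟩ := h8 j h4
    rw [(h7 u (fun h => h6 l (h ▸ h1))).unique h1 h3]
  have hdegS : ∀ v, (univ.filter (fun i : {K : Finset V // G.IsNClique q K} =>
      v ∈ S i)).card = p := by
    intro v
    obtain ⟨C, h1, h2, -, -, h8⟩ := hpartv v
    have : univ.filter (fun i : {K : Finset V // G.IsNClique q K} => v ∈ S i)
        = univ.image C := by
      ext i
      rw [mem_filter, mem_image]
      constructor
      · rintro ⟨-, h⟩
        obtain ⟨l, hl⟩ := h8 i h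
        exact ⟨l, mem_univ _, hl⟩
      · rintro ⟨l, -, rfl⟩
        exact ⟨mem_univ _, h2 l⟩
    rw [this, card_image_of_injective _ h1, card_univ, Fintype.card_fin]
  have hdegC : ∀ u, (univ.filter (fun i : {K : Finset V // G.IsNClique q K} =>
      u ∈ i.1)).card = q := by
    intro u
    have h1 : ∑ v ∈ univ.erase u, ((univ.filter (fun i : {K : Finset V // G.IsNClique q K} =>
        u ∈ i.1)).filter (fun i => v ∈ S i)).card
        = ∑ i ∈ univ.filter (fun i : {K : Finset V // G.IsNClique q K} => u ∈ i.1),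
          ((univ.erase u).filter (fun v => v ∈ S i)).card :=
      sum_card_bipartiteAbove_eq_sum_card_bipartiteBelow (fun v i => v ∈ S i)
    have h2 : ∀ v ∈ univ.erase u, ((univ.filter (fun i : {K : Finset V // G.IsNClique q K} =>
        u ∈ i.1)).filter (fun i => v ∈ S i)).card = 1 := by
      intro v hv
      rw [mem_erase] at hv
      obtain ⟨i, hi1, hi2⟩ := hpex u v (Ne.symm hv.1)
      rw [card_eq_one]
      refine ⟨i, ?_⟩
      ext j
      simp only [mem_filter, mem_univ, true_and, mem_singleton]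
      constructor
      · rintro ⟨h3, h4⟩; exact hpun u v j i h3 h4 hi1 hi2
      · rintro rfl; exact ⟨hi1, hi2⟩
    have h3 : ∀ i ∈ univ.filter (fun i : {K : Finset V // G.IsNClique q K} => u ∈ i.1),
        ((univ.erase u).filter (fun v => v ∈ S i)).card = p := by
      intro i hi
      rw [mem_filter] at hi
      have : (univ.erase u).filter (fun v => v ∈ S i) = S i := by
        ext v
        simp only [mem_filter, mem_erase, mem_univ, and_true, and_iff_right_iff_imp]
        rintro hv rfl
        exact disjoint_left.mp (hd i) hi.2 hv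
      rw [this, (hS i).card_eq]
    rw [sum_congr rfl h2, sum_congr rfl h3, sum_const, sum_const, smul_eq_mul, mul_one,
      card_erase_of_mem (mem_univ _), card_univ, hcV, smul_eq_mul] at h1
    have h4 : p * (univ.filter (fun i : {K : Finset V // G.IsNClique q K} => u ∈ i.1)).card
        = p * q := by rw [Nat.mul_comm]; omega
    exact Nat.eq_of_mul_eq_mul_left (by omega) h4
  have hadjC : ∀ i : {K : Finset V // G.IsNClique q K}, ∀ u v, u ∈ i.1 → v ∈ i.1 → u ≠ v →
      G.Adj u v := fun i u v h1 h2 h3 => i.2.isClique h1 h2 h3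
  have hadjS : ∀ i : {K : Finset V // G.IsNClique q K}, ∀ u v, u ∈ S i → v ∈ S i → u ≠ v →
      ¬ G.Adj u v := fun i u v h1 h2 h3 => (hS i).isIndepSet h1 h2 h3
  refine ⟨⟨fun i => i.1, S, hp, hq, hcV, fun i => i.2.card_eq, fun i => (hS i).card_eq,
    fun i x h1 h2 => disjoint_left.mp (hd i) h1 h2, ?_, ?_, hpex, hpun, hdegC, hdegS, ?_, ?_,
    ?_⟩, fun i => rfl, hS, hsurj, ?_⟩
  · intro i j hij
    obtain ⟨x, h1, h2⟩ := not_disjoint_iff.mp (hun i j hij)
    exact ⟨x, h1, h2⟩
  · intro i j x y h1 h2 h3 h4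
    exact meet_un i.2.isClique (hS j).isIndepSet h1 h2 h3 h4
  · intro u v huv
    rcases hw u v huv with ⟨K, hK, hu, hv⟩ | ⟨T, hT, hu, hv⟩
    · left
      exact ⟨⟨K, (max_iff hG).mp hK⟩, hu, hv⟩
    · right
      have hT' : G.IsNIndepSet p T := by
        rw [← SimpleGraph.isNClique_compl]
        refine (max_iff (Partitionable.compl hG)).mp ?_
        rw [SimpleGraph.isMaximumClique_compl]
        exact hT
      obtain ⟨i, hi⟩ := hsurj T hT'
      exact ⟨i, hi ▸ hu, hi ▸ hv⟩
  · intro D hD h
    refine ⟨⟨D, ⟨?_, hD⟩⟩, rfl⟩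
    intro u hu v hv huv
    obtain ⟨i, h1, h2⟩ := h u hu v hv huv
    exact hadjC i u v h1 h2 huv
  · intro D hD h
    refine hsurj D ⟨?_, hD⟩
    intro u hu v hv huv
    obtain ⟨i, h1, h2⟩ := h u hu v hv huv
    exact hadjS i u v h1 h2 huv
  · intro u v huv
    constructor
    · intro h
      rcases hw u v huv with ⟨K, hK, hu, hv⟩ | ⟨T, hT, hu, hv⟩
      · exact ⟨⟨K, (max_iff hG).mp hK⟩, hu, hv⟩
      · exact absurd h (hT.isIndepSet hu hv huv)
    · rintro ⟨i, h1, h2⟩
      exact hadjC i u v h1 h2 huv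

end

end Pool.Agent.H51.CC
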