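import Pool.Agent.H51.CC.Sys

/-! Critical cliques: maximum cliques meeting at most `2ω - 2` other maximum cliques. -/

namespace Pool.Agent.H51.CC.PSys

open Finset

variable {V ι : Type*} [Fintype V] [DecidableEq V] [Fintype ι] [DecidableEq ι] {p q : ℕ}
variable {P : PSys V ι p q} {k0 : ι}

/-- the other maximum cliques meeting `C k0` -/
def T (P : PSys V ι p q) (k0 : ι) : Finset ι :=
  univ.filter (fun i => i ≠ k0 ∧ ∃ x, x ∈ P.C k0 ∧ x ∈ P.C i)

theorem mem_T {i : ι} : i ∈ T P k0 ↔ i ≠ k0 ∧ ∃ x, x ∈ P.C k0 ∧ x ∈ P.C i := by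
  simp [T]

theorem T_notS {i : ι} (hi : i ∈ T P k0) {v : V} (h : v ∈ P.S i) : v ∉ P.S k0 := by
  obtain ⟨h1, x, h2, h3⟩ := mem_T.mp hi
  exact mates_disjoint h3 h2 h h1

theorem exT {i : ι} (hi : i ∈ T P k0) : ∃ s, s ∈ P.C k0 ∧ s ∈ P.S i :=
  P.ex k0 i (mem_T.mp hi).1.symm

theorem memT {x v : V} {t : ι} (hx : x ∈ P.C k0) (h : x ∈ P.C t) (hv : v ∈ P.S t)
    (h2 : v ∉ P.S k0) : t ∈ T P k0 :=
  mem_T.mpr ⟨fun h3 => h2 (h3 ▸ hv), x, hx, h⟩

theorem memT' {x v : V} {t : ι} (hx : x ∈ P.C k0) (h : x ∈ P.C t) (hv : v ∈ P.C t)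
    (h2 : v ∉ P.C k0) : t ∈ T P k0 :=
  mem_T.mpr ⟨fun h3 => h2 (h3 ▸ hv), x, hx, h⟩

theorem card_out {i : ι} (hi : i ∈ T P k0) :
    ((univ.filter (fun v => v ∉ P.C k0 ∧ v ∉ P.S k0)).filter (fun v => v ∈ P.S i)).card
      = p - 1 := by
  obtain ⟨s, hs1, hs2⟩ := exT hi
  have : (univ.filter (fun v => v ∉ P.C k0 ∧ v ∉ P.S k0)).filter (fun v => v ∈ P.S i)
      = (P.S i).erase s := by
    ext v
    simp only [mem_filter, mem_univ, true_and, mem_erase]
    constructor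
    · rintro ⟨⟨h1, -⟩, h2⟩
      exact ⟨fun h3 => h1 (h3 ▸ hs1), h2⟩
    · rintro ⟨h1, h2⟩
      exact ⟨⟨fun h3 => h1 (P.un k0 i v s h3 hs1 h2 hs2), T_notS hi h2⟩, h2⟩
  rw [this, card_erase_of_mem hs2, P.cardS]

theorem card_W : (univ.filter (fun v => v ∉ P.C k0 ∧ v ∉ P.S k0)).card = (p - 1) * (q - 1) := by
  have h1 : univ.filter (fun v => v ∉ P.C k0 ∧ v ∉ P.S k0) = (P.C k0 ∪ P.S k0)ᶜ := by
    ext v; simp
  have h2 : (P.C k0 ∪ P.S k0).card = q + p := by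
    rw [card_union_of_disjoint, P.cardC, P.cardS]
    exact disjoint_left.mpr (fun x hx => P.disj k0 x hx)
  rw [h1, card_compl, h2, P.cardV]
  obtain ⟨a, rfl⟩ := Nat.exists_eq_add_of_le P.hp
  obtain ⟨b, rfl⟩ := Nat.exists_eq_add_of_le P.hq
  have : (2 + a) * (2 + b) + 1 = (2 + a - 1) * (2 + b - 1) + (2 + b + (2 + a)) := by
    have h3 : 2 + a - 1 = 1 + a := by omega
    have h4 : 2 + b - 1 = 1 + b := by omega
    rw [h3, h4]; ring
  omega

theorem two_le {v : V} (h1 : v ∉ P.C k0) (h2 : v ∉ P.S k0) :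
    2 ≤ ((T P k0).filter (fun i => v ∈ P.S i)).card := by
  have hne : (P.C k0).Nonempty := card_pos.mp (by rw [P.cardC]; have := P.hq; omega)
  obtain ⟨u, hu⟩ := hne
  obtain ⟨i, hi1, hi2⟩ := P.pex u v (fun h => h1 (h ▸ hu))
  have hiT : i ∈ T P k0 := memT hu hi1 hi2 h2
  have : ∃ w ∈ P.C k0, w ∉ P.C i := by
    by_contra hcon
    push Not at hcon
    have h3 : P.C k0 = P.C i := eq_of_subset_of_card_le hcon (by rw [P.cardC, P.cardC])
    exact (mem_T.mp hiT).1 (inj h3).symm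
  obtain ⟨w, hw1, hw2⟩ := this
  obtain ⟨j, hj1, hj2⟩ := P.pex w v (fun h => h1 (h ▸ hw1))
  have hjT : j ∈ T P k0 := memT hw1 hj1 hj2 h2
  have hij : i ≠ j := fun h => hw2 (h ▸ hj1)
  have : ({i, j} : Finset ι) ⊆ (T P k0).filter (fun i => v ∈ P.S i) := by
    intro x hx
    rcases mem_insert.mp hx with rfl | hx
    · exact mem_filter.mpr ⟨hiT, hi2⟩
    · rw [mem_singleton.mp hx]; exact mem_filter.mpr ⟨hjT, hj2⟩
  calc 2 = ({i, j} : Finset ι).card := (card_pair hij).symm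
    _ ≤ _ := card_le_card this

/-- for a critical clique every partition uses exactly two cliques meeting it -/
theorem two (hc : (T P k0).card ≤ 2 * q - 2) {v : V} (h1 : v ∉ P.C k0) (h2 : v ∉ P.S k0) :
    ((T P k0).filter (fun i => v ∈ P.S i)).card = 2 := by
  set W := univ.filter (fun v => v ∉ P.C k0 ∧ v ∉ P.S k0) with hW
  have hsum : ∑ v ∈ W, ((T P k0).filter (fun i => v ∈ P.S i)).card
      = ∑ i ∈ T P k0, (W.filter (fun v => v ∈ P.S i)).card :=
    sum_card_bipartiteAbove_eq_sum_card_bipartiteBelow (fun v i => v ∈ P.S i)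
  have h3 : ∑ i ∈ T P k0, (W.filter (fun v => v ∈ P.S i)).card = (T P k0).card * (p - 1) := by
    rw [sum_congr rfl (fun i hi => card_out hi), sum_const, smul_eq_mul]
  have h4 : ∑ v ∈ W, 2 ≤ ∑ v ∈ W, ((T P k0).filter (fun i => v ∈ P.S i)).card :=
    sum_le_sum (fun v hv => by
      rw [hW, mem_filter] at hv
      exact two_le hv.2.1 hv.2.2)
  have h5 : W.card = (p - 1) * (q - 1) := card_W
  have h6 : (T P k0).card * (p - 1) ≤ ∑ v ∈ W, 2 := by
    rw [sum_const, smul_eq_mul, h5]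
    calc (T P k0).card * (p - 1) ≤ (2 * q - 2) * (p - 1) := Nat.mul_le_mul_right _ hc
      _ = (p - 1) * (q - 1) * 2 := by
        have : 2 * q - 2 = 2 * (q - 1) := by omega
        rw [this]; ring
  have h7 : ∑ v ∈ W, 2 = ∑ v ∈ W, ((T P k0).filter (fun i => v ∈ P.S i)).card :=
    le_antisymm h4 (by rw [hsum, h3]; exact h6)
  have h8 := (sum_eq_sum_iff_of_le (fun v hv => by
      rw [hW, mem_filter] at hv
      exact two_le hv.2.1 hv.2.2)).mp h7
  exact (h8 v (by rw [hW, mem_filter]; exact ⟨mem_univ _, h1, h2⟩)).symm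

variable (hc : (T P k0).card ≤ 2 * q - 2)

include hc

theorem only_two {v : V} (h1 : v ∉ P.C k0) {i j t : ι} (hi : i ∈ T P k0)
    (hj : j ∈ T P k0) (ht : t ∈ T P k0) (hij : i ≠ j) (vi : v ∈ P.S i) (vj : v ∈ P.S j)
    (vt : v ∈ P.S t) : t = i ∨ t = j := by
  have h2 := two hc h1 (T_notS hi vi)
  by_contra hcon
  push Not at hcon
  have : ({i, j, t} : Finset ι) ⊆ (T P k0).filter (fun i => v ∈ P.S i) := by
    intro x hx
    simp only [mem_insert, mem_singleton] at hx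
    rcases hx with rfl | rfl | rfl
    · exact mem_filter.mpr ⟨hi, vi⟩
    · exact mem_filter.mpr ⟨hj, vj⟩
    · exact mem_filter.mpr ⟨ht, vt⟩
  have h3 := card_le_card this
  rw [h2, card_eq_three.mpr ⟨i, j, t, hij, hcon.1.symm, hcon.2.symm, rfl⟩] at h3
  omega

theorem pair {v : V} (h1 : v ∉ P.C k0) {i : ι} (hi : i ∈ T P k0) (vi : v ∈ P.S i) :
    ∃ j ∈ T P k0, v ∈ P.S j ∧ ∀ x ∈ P.C k0, (x ∈ P.C i ↔ x ∉ P.C j) := by
  have h2 := two hc h1 (T_notS hi vi)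
  have : ∃ j ∈ (T P k0).filter (fun i => v ∈ P.S i), j ≠ i := by
    by_contra hcon
    push Not at hcon
    have : (T P k0).filter (fun i => v ∈ P.S i) ⊆ {i} := fun j hj => mem_singleton.mpr (hcon j hj)
    have := card_le_card this
    rw [card_singleton] at this
    omega
  obtain ⟨j, hj, hji⟩ := this
  rw [mem_filter] at hj
  refine ⟨j, hj.1, hj.2, ?_⟩
  intro x hx
  constructor
  · intro h3 h4
    exact hji (P.pun x v j i h4 hj.2 h3 vi)
  · intro h3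
    obtain ⟨t, ht1, ht2⟩ := P.pex x v (fun h => h1 (h ▸ hx))
    have htT := memT hx ht1 ht2 (T_notS hi vi)
    rcases only_two hc h1 hi hj.1 htT hji.symm vi hj.2 ht2 with rfl | rfl
    · exact ht1
    · exact absurd ht1 h3

/-- cliques meeting `C k0` are determined by their traces -/
theorem trace_inj {i j : ι} (hi : i ∈ T P k0) (hj : j ∈ T P k0)
    (h : ∀ x ∈ P.C k0, (x ∈ P.C i ↔ x ∈ P.C j)) : i = j := by
  by_contra hij
  obtain ⟨x, hx1, hx2⟩ := P.ex j i (Ne.symm hij)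
  have hxK : x ∉ P.C k0 := fun h3 => P.disj i x ((h x h3).mpr hx1) hx2
  obtain ⟨i', hi', hxi', htr⟩ := pair hc hxK hi hx2
  obtain ⟨s, hs1, hs2⟩ := exT hi'
  have h4 : s ∈ P.C i := (htr s hs1).mpr (fun h5 => P.disj i' s h5 hs2)
  have h5 : s ∈ P.C j := (h s hs1).mp h4
  exact hxK (P.un j i' s x h5 hx1 hs2 hxi' ▸ hs1)

omit hc

/-- `C i` and `C j` have complementary traces on `C k0` and their mates agree outside `C k0` -/
structure Opp (P : PSys V ι p q) (k0 i j : ι) : Prop where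
  hi : i ∈ T P k0
  hj : j ∈ T P k0
  tr : ∀ x ∈ P.C k0, (x ∈ P.C i ↔ x ∉ P.C j)
  out : ∀ x, x ∉ P.C k0 → (x ∈ P.S i ↔ x ∈ P.S j)

theorem Opp.symm {i j : ι} (h : Opp P k0 i j) : Opp P k0 j i :=
  ⟨h.hj, h.hi, fun x hx => by have := h.tr x hx; tauto, fun x hx => (h.out x hx).symm⟩

include hc

theorem exists_opp {i : ι} (hi : i ∈ T P k0) : ∃ j, Opp P k0 i j := by
  have : ∃ v ∈ P.S i, v ∉ P.C k0 := by
    obtain ⟨s, hs1, hs2⟩ := exT hi
    by_contra hcon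
    push Not at hcon
    have : P.S i ⊆ {s} := fun v hv => mem_singleton.mpr (P.un k0 i v s (hcon v hv) hs1 hv hs2)
    have := card_le_card this
    rw [card_singleton, P.cardS] at this
    have := P.hp
    omega
  obtain ⟨v, hv1, hv2⟩ := this
  obtain ⟨j, hj, hvj, htr⟩ := pair hc hv2 hi hv1
  refine ⟨j, hi, hj, htr, ?_⟩
  intro x hx
  constructor
  · intro h3
    obtain ⟨j', hj', hxj', htr'⟩ := pair hc hx hi h3
    have : j' = j := trace_inj hc hj' hj (fun y hy => by have h1 := htr y hy; have h2 := htr' y hy; tauto)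
    exact this ▸ hxj'
  · intro h3
    obtain ⟨i', hi', hxi', htr'⟩ := pair hc hx hj h3
    have : i' = i := trace_inj hc hi' hi (fun y hy => by have h1 := htr y hy; have h2 := htr' y hy; tauto)
    exact this ▸ hxi'

omit hc

/-- separation: `s ∈ S i` and `s' ∈ S j` are only separated by `C i` and `C j` -/
theorem Opp.sep {i j t : ι} {s s' : V} (h : Opp P k0 i j) (hs : s ∈ P.C k0) (hsi : s ∈ P.S i)
    (hs' : s' ∈ P.C k0) (hsj : s' ∈ P.S j) (htj : t ≠ j) (hst : s ∈ P.C t) :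
    s' ∈ P.C t := by
  obtain ⟨x, hx1, hx2⟩ := P.ex t j htj
  by_cases hx : x ∈ P.C k0
  · exact P.un k0 j x s' hx hs' hx2 hsj ▸ hx1
  · have h3 := (h.out x hx).mpr hx2
    exact absurd (P.un t i x s hx1 hst h3 hsi ▸ hs) hx

end Pool.Agent.H51.CC.PSys
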