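import Pool.Agent.H51.CC.Bridge2

/-! Partitionable graphs with clique number 2 and no weak pairs are odd holes. -/

namespace Pool.Agent.H51.CC

open Finset Pool.Agent.H51.PG

section

variable {V : Type*} [Fintype V] [DecidableEq V] {G : SimpleGraph V} {p : ℕ}

theorem reach_all {q : ℕ} (hG : Partitionable G p q) (hq : 2 ≤ q) (u w : V) : G.Reachable u w := by
  classical
  by_contra hcon
  set c := univ.filter (fun x => G.Reachable u x) with hc
  have huc : u ∈ c := by rw [hc, mem_filter]; exact ⟨mem_univ _, SimpleGraph.Reachable.refl _⟩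
  have hwc : w ∉ c := by rw [hc, mem_filter]; exact fun h => hcon h.2
  have hdvd : ∀ v, q ∣ (c.erase v).card := by
    intro v
    obtain ⟨⟨C, hC1, hC2⟩, -⟩ := hG.2.2.2 v
    have h1 : (c.erase v).card = ∑ l, ((C l) ∩ c).card := by
      have h2 : c.erase v = univ.biUnion (fun l => (C l) ∩ c) := by
        ext x
        rw [mem_erase, mem_biUnion]
        constructor
        · rintro ⟨h3, h4⟩
          obtain ⟨l, hl, -⟩ := hC2 x h3
          exact ⟨l, mem_univ _, mem_inter.mpr ⟨hl, h4⟩⟩
        · rintro ⟨l, -, h3⟩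
          rw [mem_inter] at h3
          exact ⟨fun h => (hC1 l).2 (h ▸ h3.1), h3.2⟩
      rw [h2, card_biUnion]
      intro i _ j _ hij
      refine disjoint_left.mpr ?_
      intro x hx hx'
      rw [mem_inter] at hx hx'
      exact hij ((hC2 x (fun h => (hC1 i).2 (h ▸ hx.1))).unique hx.1 hx'.1)
    rw [h1]
    refine dvd_sum (fun l _ => ?_)
    by_cases h2 : ((C l) ∩ c) = ∅
    · rw [h2, card_empty]; exact dvd_zero _
    · obtain ⟨x, hx⟩ := nonempty_iff_ne_empty.mpr h2
      rw [mem_inter, hc, mem_filter] at hx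
      have h3 : (C l) ∩ c = C l := by
        refine inter_eq_left.mpr ?_
        intro y hy
        rw [hc, mem_filter]
        refine ⟨mem_univ _, ?_⟩
        by_cases hxy : x = y
        · exact hxy ▸ hx.2.2
        · exact hx.2.2.trans ((hC1 l).1.isClique hx.1 hy hxy).reachable
      rw [h3, (hC1 l).1.card_eq]
  have h1 := hdvd u
  have h2 := hdvd w
  rw [erase_eq_of_notMem hwc] at h2
  rw [card_erase_of_mem huc] at h1
  have h3 : 0 < c.card := card_pos.mpr ⟨u, huc⟩
  have h4 := (Nat.dvd_sub h2 h1)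
  have h5 : c.card - (c.card - 1) = 1 := by omega
  rw [h5] at h4
  have := Nat.le_of_dvd one_pos h4
  omega

theorem deg_two (hG : Partitionable G p 2) (hw : NoWeakPair G) (v : V) :
    (G.neighborSet v).ncard = 2 := by
  classical
  obtain ⟨P, hP1, -, -, hadj⟩ := exists_sys hG hw
  have h1 := P.degC v
  have hex : ∀ i : {K : Finset V // G.IsNClique 2 K}, v ∈ i.1 → ∃ w, i.1.erase v = {w} := by
    intro i hi
    refine card_eq_one.mp ?_
    rw [card_erase_of_mem hi, i.2.card_eq]
  haveI : Nonempty V := ⟨v⟩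
  choose! g hg using hex
  rw [← h1, Set.ncard_eq_toFinset_card']
  refine (card_bij (fun i _ => g i) ?_ ?_ ?_).symm
  · intro i hi
    rw [mem_filter, hP1] at hi
    have h3 : g i ∈ i.1.erase v := by rw [hg i hi.2]; exact mem_singleton_self _
    rw [mem_erase] at h3
    rw [Set.mem_toFinset, SimpleGraph.mem_neighborSet]
    exact i.2.isClique hi.2 h3.2 (Ne.symm h3.1)
  · intro i hi j hj hij
    have hij' : g i = g j := hij
    rw [mem_filter, hP1] at hi hj
    refine Subtype.ext ?_
    rw [← insert_erase hi.2, ← insert_erase hj.2, hg i hi.2, hg j hj.2, hij']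
  · intro w hw'
    rw [Set.mem_toFinset, SimpleGraph.mem_neighborSet] at hw'
    obtain ⟨i, hi1, hi2⟩ := (hadj v w hw'.ne).mp hw'
    refine ⟨i, mem_filter.mpr ⟨mem_univ _, hi1⟩, ?_⟩
    rw [hP1] at hi1 hi2
    have h3 : w ∈ i.1.erase v := mem_erase.mpr ⟨hw'.ne', hi2⟩
    rw [hg i hi1] at h3
    exact (mem_singleton.mp h3).symm

theorem hole_of_two (hG : Partitionable G p 2) (hw : NoWeakPair G) : IsOddHole G := by
  classical
  have hcV : Fintype.card V = p * 2 + 1 := hG.2.2.1
  have hp := hG.1
  have hdeg := deg_two hG hw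
  have hcyc : G.IsCycles := fun v _ => hdeg v
  obtain ⟨v⟩ := Fintype.card_pos_iff.mp (show 0 < Fintype.card V by omega)
  have hn : (G.neighborSet v).Nonempty := by
    refine Set.nonempty_of_ncard_ne_zero ?_
    rw [hdeg v]; omega
  obtain ⟨c, hc1, hc2⟩ := hcyc.exists_cycle_toSubgraph_verts_eq_connectedComponentSupp
    (c := G.connectedComponentMk v) rfl hn
  have hall : ∀ a, a ∈ c.support := by
    intro a
    rw [← c.mem_verts_toSubgraph, hc2]
    exact SimpleGraph.ConnectedComponent.sound (reach_all hG le_rfl a v)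
  have hham : c.IsHamiltonianCycle := by
    rw [SimpleGraph.Walk.isHamiltonianCycle_iff_isCycle_and_support_count_tail_eq_one]
    refine ⟨hc1, fun a => ?_⟩
    refine List.count_eq_one_of_mem hc1.support_nodup ?_
    have h1 := hall a
    rw [SimpleGraph.Walk.support_eq_cons, List.mem_cons] at h1
    rcases h1 with h1 | h1
    · subst h1
      exact SimpleGraph.Walk.end_mem_tail_support (SimpleGraph.Walk.IsCycle.not_nil hc1)
    · exact h1
  have hlen : c.length = 2 * p + 1 := by rw [hham.length_eq, hcV]; ring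
  refine ⟨p, hp, ?_⟩
  obtain ⟨f⟩ := (SimpleGraph.cycleGraph_isContained_iff (show 2 < 2 * p + 1 by omega)).mpr
    ⟨v, c, hc1, hlen⟩
  have hbij : Function.Bijective f.toHom := by
    rw [Fintype.bijective_iff_injective_and_card]
    exact ⟨f.injective, by rw [Fintype.card_fin, hcV]; ring⟩
  obtain ⟨m, hm⟩ : ∃ m, 2 * p + 1 = m + 3 := ⟨2 * p - 2, by omega⟩
  have hiso : ∀ i j, G.Adj (f.toHom i) (f.toHom j) ↔ (SimpleGraph.cycleGraph (2 * p + 1)).Adj i j := by
    intro i j
    refine ⟨?_, fun h => f.toHom.map_adj h⟩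
    intro h
    have h1 : (f.toHom '' (SimpleGraph.cycleGraph (2 * p + 1)).neighborSet i) ⊆
        G.neighborSet (f.toHom i) := by
      rintro _ ⟨x, hx, rfl⟩
      exact f.toHom.map_adj hx
    have h2 : (f.toHom '' (SimpleGraph.cycleGraph (2 * p + 1)).neighborSet i).ncard = 2 := by
      rw [Set.ncard_image_of_injective _ f.injective, Set.ncard_eq_toFinset_card']
      have : ∀ (n : ℕ) (i : Fin n) (hm : n = m + 3),
          ((SimpleGraph.cycleGraph n).neighborSet i).toFinset.card = 2 := by
        rintro n i rfl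
        exact SimpleGraph.cycleGraph_degree_three_le (v := i)
      exact this _ i hm
    have h3 : f.toHom '' (SimpleGraph.cycleGraph (2 * p + 1)).neighborSet i
        = G.neighborSet (f.toHom i) :=
      Set.eq_of_subset_of_ncard_le h1 (by rw [h2, hdeg]) (Set.toFinite _)
    have h4 : f.toHom j ∈ G.neighborSet (f.toHom i) := h
    rw [← h3] at h4
    obtain ⟨x, hx, hx2⟩ := h4
    rw [f.injective hx2] at hx
    exact hx
  exact ⟨(⟨Equiv.ofBijective _ hbij, fun {a b} => hiso a b⟩ :
    SimpleGraph.cycleGraph (2 * p + 1) ≃g G).symm⟩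

end

end Pool.Agent.H51.CC
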