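import Pool.Agent.H51.CC.Leg

/-! Extension of legs, exclusion of branching. -/

namespace Pool.Agent.H51.CC.PSys

open Finset

variable {V ι : Type*} [Fintype V] [DecidableEq V] [Fintype ι] [DecidableEq ι] {p q : ℕ}
variable {P : PSys V ι p q} {k0 : ι}

theorem copair_of_subset {a b : V} {k l : ι} (ha : a ∈ P.C k) (hb : b ∈ P.C l) (hab : a ≠ b)
    (h : ∀ x ∈ P.C k, x ≠ a → x ∈ P.C l ∧ x ≠ b) : CoPair P a b k l := by
  refine ⟨ha, hb, hab, ?_⟩
  refine eq_of_subset_of_card_le ?_ ?_
  · intro x hx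
    rw [mem_erase] at hx ⊢
    exact ⟨(h x hx.2 hx.1).2, (h x hx.2 hx.1).1⟩
  · rw [card_erase_of_mem ha, card_erase_of_mem hb, P.cardC, P.cardC]

/-- a vertex of `S k0` adjacent to all of `C k0` but `c` -/
theorem big {w c : V} (hw : w ∈ P.S k0) (hcK : c ∈ P.C k0)
    (h : ∀ u ∈ P.C k0, u ≠ c → P.Adj w u) {t t' : ι} (ht : t ∈ T P k0) (ht' : t' ∈ T P k0)
    (hct : c ∈ P.S t) (hct' : c ∈ P.S t') : t = t' := by
  have hwK : w ∉ P.C k0 := fun h1 => P.disj k0 w h1 hw
  obtain ⟨i, hi⟩ := P.cl (insert w ((P.C k0).erase c)) (by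
    rw [card_insert_of_notMem (fun h1 => hwK (mem_erase.mp h1).2), card_erase_of_mem hcK,
      P.cardC]
    have := P.hq
    omega) (by
    intro u hu v hv huv
    rw [mem_insert, mem_erase] at hu hv
    rcases hu with rfl | hu
    · rcases hv with rfl | hv
      · exact absurd rfl huv
      · exact h v hv.2 hv.1
    · rcases hv with rfl | hv
      · exact (h u hu.2 hu.1).symm
      · exact ⟨k0, hu.2, hv.2⟩)
  have hik : i ≠ k0 := by
    rintro rfl
    exact hwK (hi ▸ mem_insert_self _ _)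
  obtain ⟨x, hx1, hx2⟩ := P.ex k0 i hik.symm
  have hxc : x = c := by
    by_contra hne
    refine P.disj i x ?_ hx2
    rw [hi]
    exact mem_insert_of_mem (mem_erase.mpr ⟨hne, hx1⟩)
  subst hxc
  have key : ∀ s ∈ T P k0, x ∈ P.S s → s = i := by
    intro s hs hxs
    obtain ⟨-, u, hu1, hu2⟩ := mem_T.mp hs
    have hux : u ≠ x := fun h3 => P.disj s u hu2 (h3 ▸ hxs)
    refine P.pun u x s i hu2 hxs ?_ hx2
    rw [hi]
    exact mem_insert_of_mem (mem_erase.mpr ⟨hux, hu1⟩)
  rw [key t ht hct, key t' ht' hct']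

def IsLeg (P : PSys V ι p q) (k0 : ι) (n : ℕ) (i : ι) : Prop :=
  ∃ k v A B, Leg P k0 n k v A B ∧ A (n + 1) = i

theorem leg_base {i i' : ι} (O : Opp P k0 i i') {c : V} (hcK : c ∈ P.C k0) (hci : c ∈ P.C i)
    (h : ∀ x ∈ P.C k0, x ∈ P.C i → x = c) : IsLeg P k0 0 i := by
  obtain ⟨s, hs1, hs2⟩ := exT O.hi
  obtain ⟨w, hw1, hw2⟩ := P.ex i' k0 (mem_T.mp O.hj).1
  refine ⟨fun j => if j = 0 then c else s, fun _ => w, fun _ => i,
    fun j => if j = 0 then k0 else i', ?_, rfl⟩
  refine ⟨by simp, ?_, ?_, ?_, ?_, ?_⟩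
  · intro j _
    show (if j = 0 then c else s) ∈ _
    split_ifs
    · exact hcK
    · exact hs1
  · intro j hj
    have : j = 0 := by omega
    subst this
    simp only [if_true, zero_add, one_ne_zero, if_false]
    refine copair_of_subset hcK hw1 (fun h1 => P.disj k0 c hcK (h1 ▸ hw2)) ?_
    intro x hx hxc
    refine ⟨?_, fun h1 => P.disj k0 x hx (h1 ▸ hw2)⟩
    by_contra h1
    exact hxc (h x hx ((O.tr x hx).mpr h1))
  · intro j h1 h2
    have : j = 1 := by omega
    subst this
    simpa using O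
  · intro j hj x hx
    have : j = 0 ∨ j = 1 := by omega
    rcases this with rfl | rfl
    · simp [hx]
    · simp only [one_ne_zero, if_false]
      constructor
      · intro h1 l hl
        have : l = 0 := by omega
        subst this
        simp only [if_true]
        rintro rfl
        exact (O.tr x hx).mp hci h1
      · intro h1
        have h2 := h1 0 (by omega)
        simp only [if_true] at h2
        by_contra h3
        exact h2 (h x hx ((O.tr x hx).mpr h3))
  · intro j h1 h2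
    have : j ≠ 0 := by omega
    simp only [this, if_false]
    exact hs2

variable {n : ℕ} {k v : ℕ → V} {A B : ℕ → ι}

theorem Leg.cover (L : Leg P k0 n k v A B) {g : ι}
    (honly : ∀ t ∈ T P k0, k (n + 1) ∈ P.S t → t = A (n + 1) ∨ t = g) {u : V}
    (hu : u ∈ P.C k0) (hne : u ≠ k (n + 1)) (hA : u ∉ P.C (A (n + 1))) : u ∈ P.C g := by
  obtain ⟨t, ht1, ht2⟩ := P.pex u (k (n + 1)) hne
  have htT := memT hu ht1 ht2 (fun h => P.disj k0 _ (L.kK _ le_rfl) h)
  rcases honly t htT ht2 with rfl | rfl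
  · exact absurd ht1 hA
  · exact ht1

theorem leg_extend (hc : (T P k0).card ≤ 2 * q - 2) (L : Leg P k0 n k v A B) {g h : ι}
    (O : Opp P k0 g h) (hS : k (n + 1) ∈ P.S g) (hg : g ≠ A (n + 1))
    (honly : ∀ t ∈ T P k0, k (n + 1) ∈ P.S t → t = A (n + 1) ∨ t = g) :
    IsLeg P k0 (n + 1) h := by
  obtain ⟨e, he1, he2⟩ := exT O.hj
  have hgB := L.gneB O hS (show 1 ≤ n + 1 by omega) le_rfl
  obtain ⟨w', hw1, hw2⟩ := P.ex g (B (n + 1)) hgB
  have hOn := L.opp (n + 1) (by omega) le_rfl
  have hw'K : w' ∉ P.C k0 := by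
    intro h1
    have : w' = k n := P.un k0 _ _ _ h1 (L.kK n (by omega)) hw2 (L.kS le_rfl)
    exact L.gk O hS hg (show n ≤ n + 1 by omega) (this ▸ hw1)
  have hv0 : v 0 ∈ P.C g := by
    obtain ⟨w, hw3, hw4⟩ := P.ex g k0 (mem_T.mp O.hi).1
    by_cases hwv : w = v 0
    · exact hwv ▸ hw3
    · exfalso
      refine hg (big hw4 (L.kK _ le_rfl) ?_ O.hi hOn.hi hS (L.ex _ (by omega) le_rfl))
      intro u hu hne
      by_cases hA : u ∈ P.C (A (n + 1))
      · obtain ⟨j, hj, rfl⟩ := (L.trA (by omega) le_rfl hu).mp hA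
        exact L.vg0 O hS hg hc hw3 hw4 hwv (by omega)
      · exact ⟨g, hw3, L.cover honly hu hne hA⟩
  have hco : CoPair P (k (n + 1)) w' (B (n + 1)) g := by
    refine copair_of_subset (L.kB le_rfl le_rfl) hw1
      (fun h1 => hw'K (h1 ▸ L.kK _ le_rfl)) ?_
    intro x hx hne
    refine ⟨?_, fun h1 => P.disj _ x hx (h1 ▸ hw2)⟩
    rcases L.Bsub le_rfl hx with h1 | ⟨j, hj, rfl⟩
    · exact L.cover honly h1 hne (fun h2 => (hOn.tr x h1).mp h2 hx)
    · by_cases hj0 : j = 0
      · subst hj0; exact hv0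
      · exact L.vgi O hS hg hc (by omega) (by omega)
  refine ⟨fun j => if j ≤ n + 1 then k j else e, fun j => if j ≤ n then v j else w',
    fun j => if j ≤ n + 1 then A j else h, fun j => if j ≤ n + 1 then B j else g, ?_, ?_⟩
  swap
  · simp
  refine ⟨by simp [L.B0], ?_, ?_, ?_, ?_, ?_⟩
  · intro j _
    show (if j ≤ n + 1 then k j else e) ∈ _
    split_ifs with h1
    · exact L.kK j h1
    · exact he1
  · intro j hj
    by_cases h1 : j ≤ n
    · have h2 : j ≤ n + 1 := by omega
      have h3 : j + 1 ≤ n + 1 := by omega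
      simp only [h1, h2, h3, if_true]
      exact L.co j h1
    · have : j = n + 1 := by omega
      subst this
      have h3 : ¬ (n + 1 ≤ n) := by omega
      have h4 : ¬ (n + 1 + 1 ≤ n + 1) := by omega
      simp only [le_refl, if_true, h3, h4, if_false]
      exact hco
  · intro j h1 h2
    by_cases h3 : j ≤ n + 1
    · simp only [h3, if_true]
      exact L.opp j h1 h3
    · simp only [h3, if_false]
      exact O.symm
  · intro j hj x hx
    by_cases h3 : j ≤ n + 1
    · simp only [h3, if_true]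
      rw [L.tr j h3 x hx]
      constructor
      · intro h4 l hl
        have h5 : l ≤ n + 1 := by omega
        simp only [h5, if_true]
        exact h4 l hl
      · intro h4 l hl
        have h5 : l ≤ n + 1 := by omega
        have := h4 l hl
        simp only [h5, if_true] at this
        exact this
    · simp only [h3, if_false]
      have hj2 : j = n + 2 := by omega
      subst hj2
      constructor
      · intro h4 l hl
        have h5 : l ≤ n + 1 := by omega
        simp only [h5, if_true]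
        rintro rfl
        exact L.gk O hS hg h5 h4
      · intro h4
        refine L.cover honly hx ?_ ?_
        · have := h4 (n + 1) (by omega)
          simpa using this
        · intro h5
          obtain ⟨l, hl, rfl⟩ := (L.trA (by omega) le_rfl hx).mp h5
          have h6 : l ≤ n + 1 := by omega
          have := h4 l (by omega)
          simp [h6] at this
  · intro j h1 h2
    by_cases h3 : j ≤ n + 1
    · simp only [h3, if_true]
      exact L.ex j h1 h3
    · simp only [h3, if_false]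
      exact he2

theorem branch_false (hc : (T P k0).card ≤ 2 * q - 2) {c : V} (hcK : c ∈ P.C k0) {g h : ι}
    (O : Opp P k0 g h) (hcg : c ∈ P.S g)
    (hleg : ∀ t ∈ T P k0, c ∈ P.S t → t ≠ g → ∃ n, IsLeg P k0 n t) {t1 t2 : ι}
    (ht1 : t1 ∈ T P k0) (ht2 : t2 ∈ T P k0) (hc1 : c ∈ P.S t1) (hc2 : c ∈ P.S t2)
    (hg1 : t1 ≠ g) (hg2 : t2 ≠ g) (hne : t1 ≠ t2) : False := by
  obtain ⟨w, hw1, hw2⟩ := P.ex g k0 (mem_T.mp O.hi).1
  have hexit : ∀ {t : ι} {n : ℕ} {k v : ℕ → V} {A B : ℕ → ι}, Leg P k0 n k v A B →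
      A (n + 1) = t → c ∈ P.S t → k (n + 1) = c := by
    intro t n k v A B L hA hct
    have h1 := L.ex (n + 1) (by omega) le_rfl
    rw [hA] at h1
    exact P.un k0 t _ _ (L.kK _ le_rfl) hcK h1 hct
  -- a leg whose first exchange vertex is `w`
  have hex : ∃ t ∈ T P k0, c ∈ P.S t ∧ t ≠ g ∧ ∃ n k v A B, Leg P k0 n k v A B ∧
      A (n + 1) = t ∧ w = v 0 := by
    by_contra hcon
    push Not at hcon
    refine hne (big hw2 hcK ?_ ht1 ht2 hc1 hc2)
    intro u hu huc
    obtain ⟨t, h1, h2⟩ := P.pex u c huc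
    have htT := memT hu h1 h2 (fun h => P.disj k0 _ hcK h)
    by_cases htg : t = g
    · exact ⟨g, hw1, htg ▸ h1⟩
    · obtain ⟨n, k, v, A, B, L, hA⟩ := hleg t htT h2 htg
      have hk := hexit L hA h2
      have h3 := hcon t htT h2 htg n k v A B L hA
      rw [← hA] at h1
      obtain ⟨j, hj, rfl⟩ := (L.trA (by omega) le_rfl hu).mp h1
      exact L.vg0 O (hk ▸ hcg) (fun h4 => htg (hA ▸ h4.symm)) hc hw1 hw2 h3 (by omega)
  obtain ⟨s1, hs1T, hs1c, hs1g, n, k, v, A, B, L, hA, hwv⟩ := hex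
  have hs2 : ∃ s2 ∈ T P k0, c ∈ P.S s2 ∧ s2 ≠ g ∧ s2 ≠ s1 := by
    by_cases h1 : t1 = s1
    · exact ⟨t2, ht2, hc2, hg2, fun h2 => hne (h1.trans h2.symm)⟩
    · exact ⟨t1, ht1, hc1, hg1, h1⟩
  obtain ⟨s2, hs2T, hs2c, hs2g, hs21⟩ := hs2
  have hkc := hexit L hA hs1c
  have hS : k (n + 1) ∈ P.S g := hkc ▸ hcg
  have hg : g ≠ A (n + 1) := fun h => hs1g (hA ▸ h.symm)
  obtain ⟨x, hx1, hx2⟩ := P.ex g s1 hs1g.symm
  have hxK : x ∉ P.C k0 := by
    intro h1
    have : x = c := P.un k0 s1 _ _ h1 hcK hx2 hs1c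
    exact P.disj g c (this ▸ hx1) hcg
  have hxS0 : x ∉ P.S k0 := T_notS hs1T hx2
  have hOn := L.opp (n + 1) (by omega) le_rfl
  have hxB : x ∈ P.S (B (n + 1)) := (hOn.out x hxK).mp (hA ▸ hx2)
  have hinU : ∀ t ∈ T P k0, x ∈ P.S t → t = s1 ∨ t = B (n + 1) := by
    intro t ht hxt
    rcases L.inU hc (show 1 ≤ n + 1 by omega) le_rfl hxK hxB ht hxt with h1 | h1
    · exact Or.inl (h1.trans hA)
    · exact Or.inr h1
  have claim : ∀ j, x ∈ P.S j → j = B (n + 1) ∨ c ∈ P.S j := by
    intro j hj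
    by_contra hcon
    push Not at hcon
    have hjk : j ≠ k0 := fun h1 => hxS0 (h1 ▸ hj)
    obtain ⟨l, hl1, hl2⟩ := P.ex k0 j hjk.symm
    have hlc : l ≠ c := fun h1 => hcon.2 (h1 ▸ hl2)
    obtain ⟨t, h1, h2⟩ := P.pex l c hlc
    have htT := memT hl1 h1 h2 (fun h => P.disj k0 _ hcK h)
    have hkey : x ∈ P.C t → False := fun h3 => hxK (P.un t j _ _ h3 h1 hj hl2 ▸ hl1)
    by_cases htg : t = g
    · exact hkey (htg ▸ hx1)
    by_cases hts : t = s1
    · rw [hts, ← hA] at h1
      obtain ⟨i, hi, rfl⟩ := (L.trA (by omega) le_rfl hl1).mp h1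
      have hco := L.co i (by omega)
      have hjB : j ≠ B (i + 1) := by
        intro h3
        by_cases h4 : i = n
        · subst h4; exact hcon.1 h3
        · rw [h3] at hj
          rcases hinU _ (L.opp (i + 1) (by omega) (by omega)).hj hj with h5 | h5
          · exact L.AneB (show 1 ≤ n + 1 by omega) le_rfl (show 1 ≤ i + 1 by omega) (by omega)
              (hA.trans h5.symm)
          · exact L.BneB (show i + 1 < n + 1 by omega) le_rfl h5
      have hvj := hco.imp hjB hl2
      have hvg : v i ∈ P.C g := by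
        by_cases h4 : i = 0
        · subst h4; exact hwv ▸ hw1
        · exact L.vgi O hS hg hc (by omega) (by omega)
      have hxv : x = v i := P.un g j _ _ hx1 hvg hj hvj
      by_cases h4 : i = 0
      · subst h4
        exact hxS0 (hxv ▸ (L.B0 ▸ L.vS (show 0 ≤ n by omega)))
      · have h5 : x ∈ P.S (B i) := hxv ▸ L.vS (show i ≤ n by omega)
        rcases hinU _ (L.opp i (by omega) (by omega)).hj h5 with h6 | h6
        · exact L.AneB (show 1 ≤ n + 1 by omega) le_rfl (show 1 ≤ i by omega) (by omega)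
            (hA.trans h6.symm)
        · exact L.BneB (show i < n + 1 by omega) le_rfl h6
    · obtain ⟨n', k', v', A', B', L', hA'⟩ := hleg t htT h2 htg
      have hkc' := hexit L' hA' h2
      have hS' : k' (n' + 1) ∈ P.S g := hkc' ▸ hcg
      have hg' : g ≠ A' (n' + 1) := fun h => htg (hA' ▸ h.symm)
      have hO1 : Opp P k0 s1 (B (n + 1)) := hA ▸ hOn
      obtain ⟨y, hy1, hy2, hy3, -⟩ := L'.main hO1 (hkc' ▸ hs1c)
        (fun h => hts (hA' ▸ h.symm)) hc (L'.vg O hS' hg' hc)
        (L'.gneB O hS' (by omega) le_rfl) hs1g.symm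
      have hyx : y = x := P.un g s1 _ _ hy1 hx1 hy2 hx2
      exact hkey (hyx ▸ hA' ▸ hy3)
  have hsub : univ.filter (fun j => x ∈ P.S j) ⊆
      insert (B (n + 1)) (((univ.filter (fun j => c ∈ P.S j)).erase g).erase s2) := by
    intro j hj
    rw [mem_filter] at hj
    rw [mem_insert]
    rcases claim j hj.2 with h1 | h1
    · exact Or.inl h1
    · right
      rw [mem_erase, mem_erase, mem_filter]
      refine ⟨?_, ?_, mem_univ _, h1⟩
      · rintro rfl
        rcases hinU _ hs2T hj.2 with h2 | h2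
        · exact hs21 h2
        · have h3 : k (n + 1) ∈ P.C (B (n + 1)) := L.kB le_rfl le_rfl
          rw [← h2, hkc] at h3
          exact P.disj _ _ h3 h1
      · rintro rfl
        exact P.disj _ _ hx1 hj.2
  have hcard := (card_le_card hsub).trans (card_insert_le _ _)
  rw [P.degS, card_erase_of_mem, card_erase_of_mem, P.degS] at hcard
  · have := P.hp
    omega
  · rw [mem_filter]; exact ⟨mem_univ _, hcg⟩
  · rw [mem_erase, mem_filter]; exact ⟨hs2g, mem_univ _, hs2c⟩

/-- every clique meeting a critical clique is the end of a leg -/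
theorem all_legs (hc : (T P k0).card ≤ 2 * q - 2) : ∀ (m : ℕ) (i : ι), i ∈ T P k0 →
    ((P.C i ∩ P.C k0).card = m) → ∃ n, IsLeg P k0 n i := by
  intro m
  induction m using Nat.strong_induction_on with
  | _ m ih =>
    intro i hi hm
    obtain ⟨i', O⟩ := exists_opp hc hi
    obtain ⟨c, hcK, hci'⟩ := exT O.hj
    have hci : c ∈ P.C i := (O.tr c hcK).mpr (fun h => P.disj _ _ h hci')
    have hsmall : ∀ t ∈ T P k0, c ∈ P.S t → t ≠ i' → ∃ n, IsLeg P k0 n t := by
      intro t ht hct hti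
      refine ih (P.C t ∩ P.C k0).card ?_ t ht rfl
      rw [← hm]
      refine card_lt_card ⟨?_, ?_⟩
      · intro u hu
        rw [mem_inter] at hu ⊢
        refine ⟨(O.tr u hu.2).mpr (fun h => hti (P.pun u c t i' hu.1 hct h hci')), hu.2⟩
      · intro h
        have := h (mem_inter.mpr ⟨hci, hcK⟩)
        exact P.disj t c (mem_inter.mp this).1 hct
    by_cases hF : ∃ t ∈ T P k0, c ∈ P.S t ∧ t ≠ i'
    · obtain ⟨t, htT, htc, hti⟩ := hF
      obtain ⟨n, k, v, A, B, L, hA⟩ := hsmall t htT htc hti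
      have hkc : k (n + 1) = c := by
        have h1 := L.ex (n + 1) (by omega) le_rfl
        rw [hA] at h1
        exact P.un k0 t _ _ (L.kK _ le_rfl) hcK h1 htc
      refine ⟨n + 1, leg_extend hc L O.symm (hkc ▸ hci') (fun h => hti (hA ▸ h.symm)) ?_⟩
      intro s hs hcs
      by_contra hcon
      push Not at hcon
      rw [hkc] at hcs
      rw [hA] at hcon
      exact branch_false hc hcK O.symm hci' hsmall htT hs htc hcs hti hcon.2
        (Ne.symm hcon.1)
    · push Not at hF
      refine ⟨0, leg_base O hcK hci ?_⟩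
      intro x hx hxi
      by_contra hxc
      obtain ⟨t, h1, h2⟩ := P.pex x c hxc
      have htT := memT hx h1 h2 (fun h => P.disj k0 _ hcK h)
      have := hF t htT h2
      subst this
      exact (O.tr x hx).mp hxi h1

end Pool.Agent.H51.CC.PSys
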