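import Pool.Agent.H51.CC.Crit

/-! Legs: chains of co-critical pairs starting at a critical clique. -/

namespace Pool.Agent.H51.CC.PSys

open Finset

variable {V ι : Type*} [Fintype V] [DecidableEq V] [Fintype ι] [DecidableEq ι] {p q : ℕ}
variable {P : PSys V ι p q} {k0 : ι}

structure Leg (P : PSys V ι p q) (k0 : ι) (n : ℕ) (k v : ℕ → V) (A B : ℕ → ι) : Prop where
  B0 : B 0 = k0
  kK : ∀ i ≤ n + 1, k i ∈ P.C k0
  co : ∀ i ≤ n, CoPair P (k i) (v i) (B i) (B (i + 1))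
  opp : ∀ i, 1 ≤ i → i ≤ n + 1 → Opp P k0 (A i) (B i)
  tr : ∀ i ≤ n + 1, ∀ x ∈ P.C k0, (x ∈ P.C (B i) ↔ ∀ j < i, x ≠ k j)
  ex : ∀ i, 1 ≤ i → i ≤ n + 1 → k i ∈ P.S (A i)

namespace Leg

variable {n : ℕ} {k v : ℕ → V} {A B : ℕ → ι} (L : Leg P k0 n k v A B)

include L

theorem kS {i : ℕ} (hi : i ≤ n) : k i ∈ P.S (B (i + 1)) := (L.co i hi).aS

theorem trA {i : ℕ} (h1 : 1 ≤ i) (h2 : i ≤ n + 1) {x : V} (hx : x ∈ P.C k0) :
    x ∈ P.C (A i) ↔ ∃ j < i, x = k j := by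
  have := L.tr i h2 x hx
  have h3 := (L.opp i h1 h2).tr x hx
  constructor
  · intro h4
    have h5 := h3.mp h4
    by_contra hcon
    push Not at hcon
    exact h5 (this.mpr hcon)
  · rintro ⟨j, hj, rfl⟩
    by_contra hcon
    have h5 : k j ∈ P.C (B i) := by
      by_contra h6
      exact hcon (h3.mpr h6)
    exact this.mp h5 j hj rfl

theorem kA {i j : ℕ} (hj : j < i) (h2 : i ≤ n + 1) : k j ∈ P.C (A i) :=
  (L.trA (by omega) h2 (L.kK j (by omega))).mpr ⟨j, hj, rfl⟩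

theorem kinj {i j : ℕ} (h : i < j) (hj : j ≤ n + 1) : k i ≠ k j := by
  intro h1
  have h2 := L.kA h hj
  rw [h1] at h2
  exact P.disj _ _ h2 (L.ex j (by omega) hj)

theorem kB {i j : ℕ} (hj : i ≤ j) (h2 : j ≤ n + 1) : k j ∈ P.C (B i) := by
  refine (L.tr i (by omega) _ (L.kK j h2)).mpr ?_
  intro l hl h3
  exact L.kinj (show l < j by omega) h2 h3.symm

theorem kB' {i j : ℕ} (hj : j < i) (h2 : i ≤ n + 1) : k j ∉ P.C (B i) := by
  intro h
  exact (L.tr i h2 _ (L.kK j (by omega))).mp h j hj rfl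

theorem vS {i : ℕ} (hi : i ≤ n) : v i ∈ P.S (B i) := (L.co i hi).bS

theorem vK {i : ℕ} (hi : i ≤ n) : v i ∉ P.C k0 := by
  intro h
  have h1 := (L.tr (i + 1) (by omega) _ h).mp (L.co i hi).hb
  have h2 := (L.tr i (by omega) _ h).mpr (fun j hj => h1 j (by omega))
  exact P.disj _ _ h2 (L.vS hi)

theorem vB {i j : ℕ} (hj : j < i) (h2 : i ≤ n + 1) : v j ∈ P.C (B i) := by
  induction i with
  | zero => omega
  | succ i ih =>
    by_cases h3 : j = i
    · subst h3; exact (L.co j (by omega)).hb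
    · have h4 := ih (by omega) (by omega)
      refine ((L.co i (by omega)).mem h4 ?_).1
      intro h5
      exact L.vK (show j ≤ n by omega) (h5 ▸ L.kK i (by omega))

theorem Bsub {i : ℕ} (h2 : i ≤ n + 1) {y : V} (hy : y ∈ P.C (B i)) :
    y ∈ P.C k0 ∨ ∃ j < i, y = v j := by
  induction i with
  | zero => left; rw [L.B0] at hy; exact hy
  | succ i ih =>
    by_cases h3 : y = v i
    · right; exact ⟨i, by omega, h3⟩
    · rcases ih (by omega) ((L.co i (by omega)).symm.mem hy h3).1 with h4 | ⟨j, h4, h5⟩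
      · left; exact h4
      · right; exact ⟨j, by omega, h5⟩

theorem stepB {i : ℕ} (hi : i ≤ n) {t : ι} (h1 : k (i + 1) ∈ P.C t) (h2 : k i ∉ P.C t) :
    t = B (i + 1) := by
  by_contra h
  exact h2 ((L.opp (i + 1) (by omega) (by omega)).sep (L.kK _ (by omega))
    (L.ex (i + 1) (by omega) (by omega)) (L.kK _ (by omega)) (L.kS hi) h h1)

theorem stepA {i : ℕ} (hi : i ≤ n) {t : ι} (h1 : k i ∈ P.C t) (h2 : k (i + 1) ∉ P.C t) :
    t = A (i + 1) := by
  by_contra h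
  exact h2 ((L.opp (i + 1) (by omega) (by omega)).symm.sep (L.kK _ (by omega))
    (L.kS hi) (L.kK _ (by omega)) (L.ex (i + 1) (by omega) (by omega)) h h1)

theorem chain {i m : ℕ} (him : i ≤ m) (hm : m ≤ n + 1) {t : ι} (h1 : k m ∈ P.C t)
    (h2 : k i ∉ P.C t) : ∃ j, i ≤ j ∧ j < m ∧ t = B (j + 1) := by
  induction m with
  | zero =>
    have : i = 0 := by omega
    subst this
    exact absurd h1 h2
  | succ m ih =>
    by_cases h3 : k m ∈ P.C t
    · by_cases h4 : i = m + 1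
      · subst h4; exact absurd h1 h2
      · obtain ⟨j, hj1, hj2, hj3⟩ := ih (by omega) (by omega) h3
        exact ⟨j, hj1, by omega, hj3⟩
    · by_cases h4 : i = m + 1
      · subst h4; exact absurd h1 h2
      · exact ⟨m, by omega, by omega, L.stepB (by omega) h1 h3⟩

theorem AneB {i j : ℕ} (h1 : 1 ≤ i) (h2 : i ≤ n + 1) (h3 : 1 ≤ j) (h4 : j ≤ n + 1) :
    A i ≠ B j := by
  intro h
  have h5 := L.kA (show 0 < i by omega) h2
  rw [h] at h5
  exact L.kB' (show 0 < j by omega) h4 h5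

theorem BneB {i j : ℕ} (h2 : i < j) (h4 : j ≤ n + 1) : B i ≠ B j := by
  intro h
  have h5 := L.kB (le_refl i) (by omega)
  rw [h] at h5
  exact L.kB' h2 h4 h5

/-- a vertex in `S (B i)` outside `C k0` lies only in the mates of `A i` and `B i` -/
theorem inU (hc : (T P k0).card ≤ 2 * q - 2) {i : ℕ} (h1 : 1 ≤ i) (h2 : i ≤ n + 1) {x : V}
    (hx : x ∉ P.C k0) (hxi : x ∈ P.S (B i)) {t : ι} (ht : t ∈ T P k0) (hxt : x ∈ P.S t) :
    t = A i ∨ t = B i := by
  have O := L.opp i h1 h2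
  exact only_two hc hx O.hi O.hj ht (L.AneB h1 h2 h1 h2) ((O.out x hx).mpr hxi) hxi hxt

section exit

variable {g h : ι} (O : Opp P k0 g h) (hS : k (n + 1) ∈ P.S g) (hg : g ≠ A (n + 1))

include O hS hg

theorem gneA {i : ℕ} (h1 : 1 ≤ i) (h2 : i ≤ n + 1) : g ≠ A i := by
  intro h3
  by_cases h4 : i = n + 1
  · subst h4; exact hg h3
  · have h5 := L.ex i h1 h2
    rw [← h3] at h5
    exact L.kinj (show i < n + 1 by omega) le_rfl (P.un k0 g _ _ (L.kK i h2) (L.kK _ le_rfl) h5 hS)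

omit hg in
theorem gneB {i : ℕ} (h1 : 1 ≤ i) (h2 : i ≤ n + 1) : g ≠ B i := by
  intro h3
  obtain ⟨i, rfl⟩ := Nat.exists_eq_add_of_le' h1
  have h5 := L.kS (show i ≤ n by omega)
  rw [← h3] at h5
  exact L.kinj (show i < n + 1 by omega) le_rfl
    (P.un k0 g _ _ (L.kK i (by omega)) (L.kK _ le_rfl) h5 hS)

theorem gk {i : ℕ} (hi : i ≤ n + 1) : k i ∉ P.C g := by
  induction hm : n + 1 - i generalizing i with
  | zero =>
    have : i = n + 1 := by omega
    subst this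
    exact fun h3 => P.disj g _ h3 hS
  | succ m ih =>
    have h3 := ih (i := i + 1) (by omega) (by omega)
    intro h4
    exact L.gneA O hS hg (show 1 ≤ i + 1 by omega) (by omega) (L.stepA (by omega) h4 h3)

theorem hk {i : ℕ} (hi : i ≤ n + 1) : k i ∈ P.C h := by
  by_contra h3
  exact L.gk O hS hg hi ((O.tr _ (L.kK i hi)).mpr h3)

theorem notB (hc : (T P k0).card ≤ 2 * q - 2) {x : V} (hx : x ∉ P.C k0) (hxg : x ∈ P.S g)
    {i : ℕ} (h2 : i ≤ n + 1) : x ∉ P.S (B i) := by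
  intro h3
  by_cases h1 : i = 0
  · subst h1
    rw [L.B0] at h3
    exact T_notS O.hi hxg h3
  · rcases L.inU hc (by omega) h2 hx h3 O.hi hxg with h4 | h4
    · exact L.gneA O hS hg (by omega) h2 h4
    · exact L.gneB O hS (by omega) h2 h4

theorem main (hc : (T P k0).card ≤ 2 * q - 2) {d : ι} (hd : v n ∈ P.C d) (hd1 : d ≠ B (n + 1))
    (hd2 : d ≠ g) : ∃ x, x ∈ P.C d ∧ x ∈ P.S g ∧ x ∈ P.C (A (n + 1)) ∧ x ∉ P.C k0 := by
  have hco := L.co n le_rfl
  have hkd : k n ∉ P.C d := fun h3 => hco.not_adj ⟨d, h3, hd⟩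
  obtain ⟨x, hx1, hx2⟩ := P.ex d g hd2
  have hxK : x ∉ P.C k0 := by
    intro h3
    have h4 : x = k (n + 1) := P.un k0 g _ _ h3 (L.kK _ le_rfl) hx2 hS
    rw [h4] at hx1
    exact hd1 (L.stepB le_rfl hx1 hkd)
  refine ⟨x, hx1, hx2, ?_, hxK⟩
  have hxv : x ≠ v n := by
    intro h3
    exact L.notB O hS hg hc hxK hx2 (show n ≤ n + 1 by omega) (h3 ▸ L.vS le_rfl)
  have hxk : x ≠ k n := fun h3 => hxK (h3 ▸ L.kK n (by omega))
  have hadj : P.Adj x (k n) := by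
    by_contra h3
    exact L.notB O hS hg hc hxK hx2 le_rfl (hco.nbr ⟨d, hx1, hd⟩ h3 hxk hxv)
  obtain ⟨t, ht1, ht2⟩ := hadj
  have h3 : k (n + 1) ∉ P.C t := fun h4 => hxK (P.un t g _ _ ht1 h4 hx2 hS ▸ L.kK _ le_rfl)
  exact L.stepA le_rfl ht2 h3 ▸ ht1

theorem x0 : ∃ x, x ∈ P.C (A (n + 1)) ∧ x ∈ P.S g ∧ x ∉ P.C k0 := by
  obtain ⟨x, hx1, hx2⟩ := P.ex (A (n + 1)) g (Ne.symm hg)
  refine ⟨x, hx1, hx2, ?_⟩
  intro h3
  have h4 : x = k (n + 1) := P.un k0 g _ _ h3 (L.kK _ le_rfl) hx2 hS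
  rw [h4] at hx1
  exact P.disj _ _ hx1 (L.ex (n + 1) (by omega) le_rfl)

theorem vg (hc : (T P k0).card ≤ 2 * q - 2) : v n ∈ P.C g := by
  by_contra hcon
  have hco := L.co n le_rfl
  obtain ⟨x, hx1, hx2, hx3⟩ := L.x0 O hS hg
  have hall : ∀ d, v n ∈ P.C d → d ≠ B (n + 1) → x ∈ P.C d := by
    intro d hd hd1
    obtain ⟨y, hy1, hy2, hy3, -⟩ := L.main O hS hg hc hd hd1 (fun h3 => hcon (h3 ▸ hd))
    exact P.un _ g _ _ hy3 hx1 hy2 hx2 ▸ hy1
  have hxB : x ∉ P.C (B n) := by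
    intro h3
    rcases L.Bsub (by omega) h3 with h4 | ⟨j, hj, rfl⟩
    · exact hx3 h4
    · exact L.notB O hS hg hc hx3 hx2 (show j ≤ n + 1 by omega) (L.vS (by omega))
  have hxv : x ≠ v n := by
    rintro rfl
    exact L.notB O hS hg hc hx3 hx2 (show n ≤ n + 1 by omega) (L.vS le_rfl)
  have hxk : x ≠ k n := fun h3 => hx3 (h3 ▸ L.kK n (by omega))
  obtain ⟨t, ht1, ht2, ht3⟩ := hco.third hxk hxv hxB
  have hkA : k n ∈ P.C (A (n + 1)) := L.kA (by omega) le_rfl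
  have hvA : v n ∉ P.C (A (n + 1)) := fun h3 => hco.not_adj ⟨_, hkA, h3⟩
  set D := univ.filter (fun i => v n ∈ P.C i) with hD
  have hDc : D.card = q := P.degC _
  have hBD : B (n + 1) ∈ D := by rw [hD, mem_filter]; exact ⟨mem_univ _, hco.hb⟩
  have hsub : insert (A (n + 1)) (insert t (D.erase (B (n + 1)))) ⊆
      univ.filter (fun i => x ∈ P.C i) := by
    intro d hd
    rw [mem_filter]
    refine ⟨mem_univ _, ?_⟩
    rcases mem_insert.mp hd with rfl | hd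
    · exact hx1
    · rcases mem_insert.mp hd with rfl | hd
      · exact ht1
      · rw [mem_erase, hD, mem_filter] at hd
        exact hall d hd.2.2 hd.1
  have hcard := card_le_card hsub
  rw [P.degC, card_insert_of_notMem, card_insert_of_notMem, card_erase_of_mem hBD, hDc] at hcard
  · have := P.hq
    omega
  · intro h3
    rw [mem_erase, hD, mem_filter] at h3
    exact ht3 h3.2.2
  · intro h3
    rcases mem_insert.mp h3 with h3 | h3
    · exact ht2 (h3 ▸ hkA)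
    · rw [mem_erase, hD, mem_filter] at h3
      exact hvA h3.2.2

theorem vgi (hc : (T P k0).card ≤ 2 * q - 2) {i : ℕ} (h1 : 1 ≤ i) (h2 : i ≤ n) :
    v i ∈ P.C g := by
  by_cases hin : i = n
  · subst hin; exact L.vg O hS hg hc
  have hco := L.co n le_rfl
  obtain ⟨y, hy1, hy2⟩ := P.ex g (B i) (L.gneB O hS h1 (by omega))
  have hyK : y ∉ P.C k0 := by
    intro h3
    obtain ⟨m, rfl⟩ := Nat.exists_eq_add_of_le' h1
    have h4 : y = k m := P.un k0 _ _ _ h3 (L.kK _ (by omega)) hy2 (L.kS (by omega))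
    exact L.gk O hS hg (show m ≤ n + 1 by omega) (h4 ▸ hy1)
  have hOi := L.opp i h1 (by omega)
  have hyv : y ≠ v n := by
    intro h3
    have h4 : y ∈ P.S (B n) := h3 ▸ L.vS le_rfl
    rcases L.inU hc h1 (by omega) hyK hy2 (L.opp n (by omega) (by omega)).hj h4 with h5 | h5
    · exact L.AneB h1 (by omega) (by omega) (by omega) h5.symm
    · exact L.BneB (show i < n by omega) (by omega) h5.symm
  have hyk : y ≠ k n := fun h3 => hyK (h3 ▸ L.kK n (by omega))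
  have hadj : P.Adj y (k n) := by
    by_contra h3
    have h4 := hco.nbr ⟨g, hy1, L.vg O hS hg hc⟩ h3 hyk hyv
    rcases L.inU hc h1 (by omega) hyK hy2 (L.opp (n + 1) (by omega) (by omega)).hj h4 with h5 | h5
    · exact L.AneB h1 (by omega) (by omega) (by omega) h5.symm
    · exact L.BneB (show i < n + 1 by omega) (by omega) h5.symm
  obtain ⟨t, ht1, ht2⟩ := hadj
  have hkt : k i ∉ P.C t := by
    intro h3
    exact hyK (P.un t (A i) _ _ ht1 h3 ((hOi.out y hyK).mpr hy2) (L.ex i h1 (by omega)) ▸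
      L.kK i (by omega))
  obtain ⟨j, hj1, hj2, rfl⟩ := L.chain h2 (by omega) ht2 hkt
  have h5 := L.vB (show i < j + 1 by omega) (by omega)
  exact P.un _ _ _ _ ht1 h5 hy2 (L.vS h2) ▸ hy1

theorem vg0 (hc : (T P k0).card ≤ 2 * q - 2) {w : V} (hw : w ∈ P.C g) (hw0 : w ∈ P.S k0)
    (hne : w ≠ v 0) {j : ℕ} (hj : j ≤ n) : P.Adj w (k j) := by
  have hco := L.co n le_rfl
  have hn : n ≠ 0 := by
    rintro rfl
    have h3 := L.vg O hS hg hc
    have h4 : v 0 ∈ P.S k0 := L.B0 ▸ L.vS le_rfl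
    exact hne (P.un g k0 _ _ hw h3 hw0 h4)
  have hwv : w ≠ v n := by
    intro h3
    exact T_notS (L.opp n (by omega) (by omega)).hj (L.vS le_rfl) (h3 ▸ hw0)
  have hwk : w ≠ k n := by
    intro h3
    exact P.disj k0 _ (L.kK n (by omega)) (h3 ▸ hw0)
  have hadj : P.Adj w (k n) := by
    by_contra h3
    exact T_notS (L.opp (n + 1) (by omega) le_rfl).hj
      (hco.nbr ⟨g, hw, L.vg O hS hg hc⟩ h3 hwk hwv) hw0
  obtain ⟨t, ht1, ht2⟩ := hadj
  by_cases hjt : k j ∈ P.C t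
  · exact ⟨t, ht1, hjt⟩
  · exfalso
    obtain ⟨l, hl1, hl2, rfl⟩ := L.chain hj (by omega) ht2 hjt
    have h5 := L.vB (show 0 < l + 1 by omega) (by omega)
    exact hne (P.un _ k0 _ _ ht1 h5 hw0 (L.B0 ▸ L.vS (by omega)))

end exit

end Leg

end Pool.Agent.H51.CC.PSys
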