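import Pool.Agent.H51.CC.Three
import Pool.Agent.H51.CC.Cycle

/-! Critical cliques and critical stable sets in partitionable graphs without weak pairs. -/

namespace Pool.Agent.H51.CC

open Finset Pool.Agent.H51.PG

variable {V : Type*} [Fintype V] [DecidableEq V]

/-- `K` is a maximum clique meeting at most `2|K| - 2` other maximum cliques -/
def IsCriticalClique (G : SimpleGraph V) (K : Finset V) : Prop :=
  G.IsMaximumClique K ∧
    {L : Finset V | G.IsMaximumClique L ∧ L ≠ K ∧ ¬ Disjoint L K}.ncard ≤ 2 * K.card - 2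

variable {G : SimpleGraph V} {p q : ℕ}

theorem NoWeakPair.compl (h : NoWeakPair G) : NoWeakPair Gᶜ := by
  intro u v huv
  rcases h u v huv with ⟨K, hK, h1, h2⟩ | ⟨S, hS, h1, h2⟩
  · right
    exact ⟨K, by rw [SimpleGraph.isMaximumIndepSet_compl]; exact hK, h1, h2⟩
  · left
    exact ⟨S, by rw [SimpleGraph.isMaximumClique_compl]; exact hS, h1, h2⟩

theorem hole_or_antihole (hG : Partitionable G p q) (hw : NoWeakPair G) (h : p = 2 ∨ q = 2) :
    IsOddHole G ∨ IsOddHole Gᶜ := by
  rcases h with rfl | rfl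
  · right; exact hole_of_two (Partitionable.compl hG) (NoWeakPair.compl hw)
  · left; exact hole_of_two hG hw

theorem of_critical (hG : Partitionable G p q) (hw : NoWeakPair G) {K : Finset V}
    (hK : IsCriticalClique G K) : p = 2 ∨ q = 2 := by
  classical
  obtain ⟨P, hC, -, -, -⟩ := exists_sys hG hw
  have hKq : G.IsNClique q K := (max_iff hG).mp hK.1
  refine PSys.critical (P := P) (k0 := ⟨K, hKq⟩) ?_
  have h1 := hK.2
  rw [hKq.card_eq] at h1
  refine le_trans ?_ h1
  have h2 : (((PSys.T P ⟨K, hKq⟩).image (fun i => i.1) : Finset (Finset V)) : Set (Finset V)) ⊆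
      {L : Finset V | G.IsMaximumClique L ∧ L ≠ K ∧ ¬ Disjoint L K} := by
    intro L hL
    rw [coe_image, Set.mem_image] at hL
    obtain ⟨i, hi, rfl⟩ := hL
    obtain ⟨h3, x, h4, h5⟩ := PSys.mem_T.mp (mem_coe.mp hi)
    rw [hC] at h4 h5
    refine ⟨(max_iff hG).mpr i.2, fun h6 => h3 (Subtype.ext h6), ?_⟩
    exact not_disjoint_iff.mpr ⟨x, h5, h4⟩
  have h3 := Set.ncard_le_ncard h2 (Set.toFinite _)
  rw [Set.ncard_coe_finset, card_image_of_injective _ Subtype.val_injective] at h3
  exact h3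

theorem of_three (hG : Partitionable G p 3) (hw : NoWeakPair G) {K L : Finset V}
    (hK : G.IsMaximumClique K) (hL : G.IsMaximumClique L) (hne : K ≠ L)
    (h2 : 2 ≤ (K ∩ L).card) : p = 2 := by
  classical
  obtain ⟨P, hC, -, -, -⟩ := exists_sys hG hw
  have hKq : G.IsNClique 3 K := (max_iff hG).mp hK
  have hLq : G.IsNClique 3 L := (max_iff hG).mp hL
  have hcard : (K ∩ L).card = 2 := by
    refine le_antisymm ?_ h2
    by_contra hcon
    have h3 : K ∩ L = K := eq_of_subset_of_card_le inter_subset_left (by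
      rw [hKq.card_eq]; omega)
    have h4 : K ∩ L = L := eq_of_subset_of_card_le inter_subset_right (by
      rw [hLq.card_eq]; omega)
    exact hne (h3.symm.trans h4)
  have hKL : (K \ L).card = 1 := by
    have := card_sdiff_add_card_inter K L
    rw [hcard, hKq.card_eq] at this
    omega
  have hLK : (L \ K).card = 1 := by
    have := card_sdiff_add_card_inter L K
    rw [inter_comm, hcard, hLq.card_eq] at this
    omega
  obtain ⟨a, ha⟩ := card_eq_one.mp hKL
  obtain ⟨b, hb⟩ := card_eq_one.mp hLK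
  have ha' : a ∈ K \ L := by rw [ha]; exact mem_singleton_self _
  have hb' : b ∈ L \ K := by rw [hb]; exact mem_singleton_self _
  rw [mem_sdiff] at ha' hb'
  have hco : PSys.CoPair P a b ⟨K, hKq⟩ ⟨L, hLq⟩ := by
    refine PSys.copair_of_subset (by rw [hC]; exact ha'.1) (by rw [hC]; exact hb'.1)
      (fun h => hb'.2 (h ▸ ha'.1)) ?_
    intro x hx hxa
    rw [hC] at hx ⊢
    refine ⟨?_, fun h => hb'.2 (h ▸ hx)⟩
    by_contra hxL
    have : x ∈ K \ L := mem_sdiff.mpr ⟨hx, hxL⟩
    rw [ha] at this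
    exact hxa (mem_singleton.mp this)
  exact PSys.copair_three hco

/-- the classification -/
theorem classification (hG : Partitionable G p q) (hw : NoWeakPair G)
    (h : (∃ K, IsCriticalClique G K) ∨ (∃ S, IsCriticalClique Gᶜ S) ∨
      (q = 3 ∧ ∃ K L, G.IsMaximumClique K ∧ G.IsMaximumClique L ∧ K ≠ L ∧ 2 ≤ (K ∩ L).card) ∨
      (p = 3 ∧ ∃ S T, G.IsMaximumIndepSet S ∧ G.IsMaximumIndepSet T ∧ S ≠ T ∧
        2 ≤ (S ∩ T).card)) :
    IsOddHole G ∨ IsOddHole Gᶜ := by
  refine hole_or_antihole hG hw ?_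
  rcases h with ⟨K, hK⟩ | ⟨S, hS⟩ | ⟨hq, K, L, hK, hL, hne, h2⟩ | ⟨hp, S, T, hS, hT, hne, h2⟩
  · exact of_critical hG hw hK
  · exact (of_critical (Partitionable.compl hG) (NoWeakPair.compl hw) hS).symm
  · subst hq
    exact Or.inl (of_three hG hw hK hL hne h2)
  · subst hp
    right
    refine of_three (Partitionable.compl hG) (NoWeakPair.compl hw) (K := S) (L := T) ?_ ?_ hne h2
    · rw [SimpleGraph.isMaximumClique_compl]; exact hS
    · rw [SimpleGraph.isMaximumClique_compl]; exact hT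

end Pool.Agent.H51.CC
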