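import Pool.Agent.H51.CC.Ext

/-! The final contradiction: a critical clique forces `p = 2` or `q = 2`. -/

namespace Pool.Agent.H51.CC.PSys

open Finset

variable {V ι : Type*} [Fintype V] [DecidableEq V] [Fintype ι] [DecidableEq ι] {p q : ℕ}
variable {P : PSys V ι p q} {k0 : ι}
variable {n : ℕ} {k v : ℕ → V} {A B : ℕ → ι}

theorem Leg.trunc (L : Leg P k0 n k v A B) {m : ℕ} (hm : m ≤ n) : Leg P k0 m k v A B :=
  ⟨L.B0, fun i hi => L.kK i (by omega), fun i hi => L.co i (by omega),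
    fun i h1 h2 => L.opp i h1 (by omega), fun i hi => L.tr i (by omega),
    fun i h1 h2 => L.ex i h1 (by omega)⟩

theorem Leg.kinj' (L : Leg P k0 n k v A B) {i j : ℕ} (hi : i ≤ n + 1) (hj : j ≤ n + 1)
    (h : k i = k j) : i = j := by
  rcases lt_trichotomy i j with h1 | h1 | h1
  · exact absurd h (L.kinj h1 hj)
  · exact h1
  · exact absurd h.symm (L.kinj h1 hi)

theorem Leg.cardA (L : Leg P k0 n k v A B) {i : ℕ} (h1 : 1 ≤ i) (h2 : i ≤ n + 1) :
    (P.C (A i) ∩ P.C k0).card = i := by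
  have : P.C (A i) ∩ P.C k0 = (range i).image k := by
    ext x
    rw [mem_inter, mem_image]
    constructor
    · rintro ⟨h3, h4⟩
      obtain ⟨j, hj, rfl⟩ := (L.trA h1 h2 h4).mp h3
      exact ⟨j, mem_range.mpr hj, rfl⟩
    · rintro ⟨j, hj, rfl⟩
      rw [mem_range] at hj
      exact ⟨L.kA hj h2, L.kK j (by omega)⟩
  rw [this, card_image_of_injOn, card_range]
  intro a ha b hb hab
  simp only [coe_range, Set.mem_Iio] at ha hb
  exact L.kinj' (by omega) (by omega) hab

theorem Leg.cardB (L : Leg P k0 n k v A B) {i : ℕ} (h1 : 1 ≤ i) (h2 : i ≤ n + 1) :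
    (P.C (B i) ∩ P.C k0).card = q - i := by
  have h3 : P.C k0 ∩ P.C (B i) = P.C k0 \ P.C (A i) := by
    ext x
    rw [mem_inter, mem_sdiff]
    constructor
    · rintro ⟨h3, h4⟩
      exact ⟨h3, fun h5 => ((L.opp i h1 h2).tr x h3).mp h5 h4⟩
    · rintro ⟨h3, h4⟩
      refine ⟨h3, ?_⟩
      by_contra h5
      exact h4 (((L.opp i h1 h2).tr x h3).mpr h5)
  rw [inter_comm, h3]
  have h4 := card_sdiff_add_card_inter (P.C k0) (P.C (A i))
  rw [inter_comm, L.cardA h1 h2, P.cardC] at h4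
  omega

theorem exists_full (hc : (T P k0).card ≤ 2 * q - 2) :
    ∃ n k v A B, Leg P k0 n k v A B ∧ n + 2 = q := by
  have hne : (T P k0).Nonempty := by
    have : (P.C k0).Nonempty := card_pos.mp (by rw [P.cardC]; have := P.hq; omega)
    obtain ⟨u, hu⟩ := this
    have h1 := P.degC u
    have : ∃ i ∈ univ.filter (fun i => u ∈ P.C i), i ≠ k0 := by
      by_contra hcon
      push Not at hcon
      have : univ.filter (fun i => u ∈ P.C i) ⊆ {k0} := fun j hj => mem_singleton.mpr (hcon j hj)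
      have := card_le_card this
      rw [card_singleton, h1] at this
      have := P.hq
      omega
    obtain ⟨i, hi, hik⟩ := this
    rw [mem_filter] at hi
    exact ⟨i, mem_T.mpr ⟨hik, u, hu, hi.2⟩⟩
  obtain ⟨i, hi, hmin⟩ := exists_min_image (T P k0) (fun i => (P.C i ∩ P.C k0).card) hne
  obtain ⟨i', O⟩ := exists_opp hc hi
  obtain ⟨c, hcK, hci'⟩ := exT O.hj
  have hci : c ∈ P.C i := (O.tr c hcK).mpr (fun h => P.disj _ _ h hci')
  have hsing : ∀ x ∈ P.C k0, x ∈ P.C i → x = c := by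
    intro x hx hxi
    by_contra hxc
    obtain ⟨t, h1, h2⟩ := P.pex x c hxc
    have htT := memT hx h1 h2 (fun h => P.disj k0 _ hcK h)
    have hti : t ≠ i' := fun h => (O.tr x hx).mp hxi (h ▸ h1)
    have hlt : (P.C t ∩ P.C k0).card < (P.C i ∩ P.C k0).card := by
      refine card_lt_card ⟨?_, ?_⟩
      · intro u hu
        rw [mem_inter] at hu ⊢
        refine ⟨(O.tr u hu.2).mpr (fun h => hti (P.pun u c t i' hu.1 h2 h hci')), hu.2⟩
      · intro h
        have := h (mem_inter.mpr ⟨hci, hcK⟩)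
        exact P.disj t c (mem_inter.mp this).1 h2
    have := hmin t htT
    omega
  obtain ⟨n, k, v, A, B, L, hA⟩ := all_legs hc _ i' O.hj rfl
  refine ⟨n, k, v, A, B, L, ?_⟩
  have h1 := L.cardA (show 1 ≤ n + 1 by omega) le_rfl
  rw [hA] at h1
  have h2 : P.C i' ∩ P.C k0 = (P.C k0).erase c := by
    ext x
    rw [mem_inter, mem_erase]
    constructor
    · rintro ⟨h3, h4⟩
      exact ⟨fun h5 => P.disj _ _ (h5 ▸ h3) hci', h4⟩
    · rintro ⟨h3, h4⟩
      refine ⟨?_, h4⟩
      by_contra h5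
      exact h3 (hsing x h4 ((O.tr x h4).mpr h5))
  rw [h2, card_erase_of_mem hcK, P.cardC] at h1
  have := P.hq
  omega

section full

variable (L : Leg P k0 n k v A B) (hn : n + 2 = q)

include L hn

theorem Leg.allK {x : V} (hx : x ∈ P.C k0) : ∃ j ≤ n + 1, x = k j := by
  have h1 : (range (n + 2)).image k ⊆ P.C k0 := by
    intro y hy
    obtain ⟨j, hj, rfl⟩ := mem_image.mp hy
    rw [mem_range] at hj
    exact L.kK j (by omega)
  have h2 : ((range (n + 2)).image k).card = n + 2 := by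
    rw [card_image_of_injOn, card_range]
    intro a ha b hb hab
    simp only [coe_range, Set.mem_Iio] at ha hb
    exact L.kinj' (by omega) (by omega) hab
  have h3 := eq_of_subset_of_card_le h1 (by rw [P.cardC, h2]; omega)
  rw [← h3] at hx
  obtain ⟨j, hj, rfl⟩ := mem_image.mp hx
  rw [mem_range] at hj
  exact ⟨j, by omega, rfl⟩

theorem Leg.allT {t : ι} (ht : t ∈ T P k0) : ∃ j, 1 ≤ j ∧ j ≤ n + 1 ∧ (t = A j ∨ t = B j) := by
  by_contra hcon
  push Not at hcon
  have hstep : ∀ i ≤ n, (k i ∈ P.C t ↔ k (i + 1) ∈ P.C t) := by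
    intro i hi
    have h1 := hcon (i + 1) (by omega) (by omega)
    constructor
    · intro h2
      by_contra h3
      exact h1.1 (L.stepA hi h2 h3)
    · intro h2
      by_contra h3
      exact h1.2 (L.stepB hi h2 h3)
  have hall : ∀ i ≤ n + 1, (k i ∈ P.C t ↔ k 0 ∈ P.C t) := by
    intro i hi
    induction i with
    | zero => rfl
    | succ i ih => rw [← hstep i (by omega), ih (by omega)]
  obtain ⟨hne, x, hx, hxt⟩ := mem_T.mp ht
  obtain ⟨j, hj, rfl⟩ := L.allK hn hx
  have h0 := (hall j hj).mp hxt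
  have hsub : P.C k0 ⊆ P.C t := by
    intro y hy
    obtain ⟨l, hl, rfl⟩ := L.allK hn hy
    exact (hall l hl).mpr h0
  exact hne (inj (eq_of_subset_of_card_le hsub (by rw [P.cardC, P.cardC]))).symm

theorem Leg.rev (hc : (T P k0).card ≤ 2 * q - 2) :
    ∃ k' v' A' B', Leg P k0 n k' v' A' B' ∧ ∀ i, 1 ≤ i → i ≤ n + 1 →
      A' i = B (n + 2 - i) ∧ B' i = A (n + 2 - i) ∧ k' i = k (n + 1 - i) := by
  obtain ⟨n', k', v', A', B', L', hA'⟩ := all_legs hc _ (B 1)
    (L.opp 1 le_rfl (by omega)).hj rfl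
  have hnn : n' = n := by
    have h1 := L'.cardA (show 1 ≤ n' + 1 by omega) le_rfl
    rw [hA', L.cardB le_rfl (by omega)] at h1
    omega
  subst hnn
  refine ⟨k', v', A', B', L', ?_⟩
  have hk0 : k' (n' + 1) = k 0 := by
    have h1 := L'.ex (n' + 1) (by omega) le_rfl
    rw [hA'] at h1
    exact P.un k0 _ _ _ (L'.kK _ le_rfl) (L.kK 0 (by omega)) h1 (L.kS (by omega))
  intro i h1 h2
  have hO' := L'.opp i h1 h2
  have hA : A' i = B (n' + 2 - i) := by
    obtain ⟨j, hj1, hj2, hj3⟩ := L.allT hn hO'.hi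
    have hc1 := L'.cardA h1 h2
    rcases hj3 with hj3 | hj3
    · exfalso
      have h3 : k 0 ∈ P.C (A' i) := by rw [hj3]; exact L.kA (by omega) hj2
      rw [← hk0] at h3
      obtain ⟨l, hl, hl2⟩ := (L'.trA h1 h2 (L'.kK _ le_rfl)).mp h3
      exact L'.kinj (show l < n' + 1 by omega) le_rfl hl2.symm
    · rw [hj3, L.cardB hj1 hj2] at hc1
      have : j = n' + 2 - i := by omega
      rw [hj3, this]
  have hO := L.opp (n' + 2 - i) (by omega) (by omega)
  refine ⟨hA, ?_, ?_⟩
  · refine trace_inj hc hO'.hj hO.hi ?_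
    intro x hx
    have h3 := hO'.tr x hx
    have h4 := hO.tr x hx
    rw [hA] at h3
    tauto
  · have h3 := L'.ex i h1 h2
    rw [hA] at h3
    have h4 := L.kS (show n' + 1 - i ≤ n' by omega)
    have h5 : n' + 1 - i + 1 = n' + 2 - i := by omega
    rw [h5] at h4
    exact P.un k0 _ _ _ (L'.kK i h2) (L.kK _ (by omega)) h3 h4

end full

/-- a vertex co-critical in two directions lies in at most two stable sets -/
theorem p_le_two {h a b : V} {l1 l2 l3 l4 : ι} (h1 : CoPair P a h l1 l2) (h2 : CoPair P b h l3 l4)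
    (hab : a ≠ b) (ha : a ∈ P.C k0) (hb : b ∈ P.C k0) : p ≤ 2 := by
  have : univ.filter (fun j => h ∈ P.S j) ⊆ {l1, l3} := by
    intro j hj
    rw [mem_filter] at hj
    by_contra hcon
    simp only [mem_insert, mem_singleton, not_or] at hcon
    exact hab (P.un k0 j a b ha hb (h1.symm.imp hcon.1 hj.2) (h2.symm.imp hcon.2 hj.2))
  have := card_le_card this
  rw [P.degS] at this
  exact this.trans card_le_two

theorem final_four (hc : (T P k0).card ≤ 2 * q - 2) (L : Leg P k0 n k v A B) (hn : n + 2 = q)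
    (hn2 : 2 ≤ n) : p ≤ 2 := by
  obtain ⟨k', v', A', B', L', hrev⟩ := L.rev hn hc
  obtain ⟨m, rfl⟩ := Nat.exists_eq_add_of_le' hn2
  -- `n = m + 2`
  have hOn := L.opp (m + 2) (by omega) (by omega)
  have hvK : v (m + 2) ∉ P.C k0 := L.vK le_rfl
  have hvS : v (m + 2) ∈ P.S (B (m + 2)) := L.vS le_rfl
  have hco := L.co m (by omega)
  have hvv : v (m + 2) ≠ v m := by
    intro h1
    have h2 := L.vB (show m < m + 2 by omega) (by omega)
    rw [← h1] at h2
    exact P.disj _ _ h2 hvS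
  have hadj : P.Adj (v (m + 2)) (k m) := by
    by_contra h1
    have h2 := hco.nbr ⟨B (m + 3), L.vB (show m + 2 < m + 3 by omega) (by omega),
      L.vB (show m < m + 3 by omega) (by omega)⟩ h1
      (fun h3 => hvK (h3 ▸ L.kK m (by omega))) hvv
    rcases L.inU hc (show 1 ≤ m + 2 by omega) (by omega) hvK hvS
      (L.opp (m + 1) (by omega) (by omega)).hj h2 with h3 | h3
    · exact L.AneB (by omega) (by omega) (by omega) (by omega) h3.symm
    · exact L.BneB (show m + 1 < m + 2 by omega) (by omega) h3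
  obtain ⟨t, ht1, ht2⟩ := hadj
  have hkt : k (m + 1) ∉ P.C t := by
    intro h3
    exact hvK (P.un t _ _ _ ht1 h3 hvS (L.kS (show m + 1 ≤ m + 2 by omega)) ▸
      L.kK _ (by omega))
  have htA := L.stepA (show m ≤ m + 2 by omega) ht2 hkt
  have hvA : v (m + 2) ∈ P.C (A (m + 1)) := htA ▸ ht1
  have hco' := L'.co 2 (by omega)
  have e1 := (hrev 2 (by omega) (by omega)).2.1
  have e2 := (hrev 3 (by omega) (by omega)).2.1
  have e3 := (hrev 2 (by omega) (by omega)).2.2
  have n1 : m + 2 + 2 - 2 = m + 2 := by omega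
  have n2 : m + 2 + 2 - 3 = m + 1 := by omega
  have n3 : m + 2 + 1 - 2 = m + 1 := by omega
  rw [n1] at e1
  rw [n2] at e2
  rw [n3] at e3
  have hB3 : B' (2 + 1) = A (m + 1) := e2
  rw [e1, hB3, e3] at hco'
  have hv' : v' 2 = v (m + 2) :=
    P.un _ _ _ _ hco'.hb hvA hco'.bS ((hOn.out _ hvK).mpr hvS)
  rw [hv'] at hco'
  have hco2 := L.co (m + 2) le_rfl
  exact p_le_two (k0 := k0) hco2 hco' (L.kinj (show m + 1 < m + 2 by omega) (by omega)).symm
    (L.kK _ (by omega)) (L.kK _ (by omega))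

theorem final_three (hc : (T P k0).card ≤ 2 * q - 2) (L : Leg P k0 1 k v A B) (hq3 : q = 3) :
    p ≤ 2 := by
  obtain ⟨k', v', A', B', L', hrev⟩ := L.rev (by omega) hc
  have e11 := hrev 1 (by omega) (by omega)
  have e22 := hrev 2 (by omega) (by omega)
  norm_num at e11 e22
  -- `A' 1 = B 2`, `B' 1 = A 2`, `k' 1 = k 1`, `A' 2 = B 1`, `B' 2 = A 1`, `k' 2 = k 0`
  have O1 := L.opp 1 le_rfl (by omega)
  have O2 := L.opp 2 (by omega) (by omega)
  have hA12 : A 1 ≠ A 2 := by
    intro h1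
    have h2 := L.kA (show 1 < 2 by omega) (by omega)
    rw [← h1] at h2
    exact P.disj _ _ h2 (L.ex 1 le_rfl (by omega))
  have hco1 := L'.co 1 le_rfl
  have hB2 : B' (1 + 1) = A 1 := e22.2.1
  rw [e11.2.1, e11.2.2, hB2] at hco1
  set h := v' 1 with hh
  have hhK : h ∉ P.C k0 := L'.vK le_rfl
  have hhA1 : h ∈ P.C (A 1) := hco1.hb
  have hhS2 : h ∈ P.S (B 2) := (O2.out h hhK).mp hco1.bS
  have hv1K : v 1 ∉ P.C k0 := L.vK le_rfl
  have hv1B2 : v 1 ∈ P.C (B 2) := L.vB (by omega) (by omega)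
  have hv1S1 : v 1 ∈ P.S (B 1) := L.vS le_rfl
  have hv1SA1 : v 1 ∈ P.S (A 1) := (O1.out _ hv1K).mpr hv1S1
  have hv0S : v 0 ∈ P.S k0 := L.B0 ▸ L.vS (by omega)
  have hv0S' : v' 0 ∈ P.S k0 := L'.B0 ▸ L'.vS (by omega)
  have hv0B1 : v 0 ∈ P.C (B 1) := L.vB (by omega) (by omega)
  have hv0B2 : v 0 ∈ P.C (B 2) := L.vB (by omega) (by omega)
  have hv0A2 : v' 0 ∈ P.C (A 2) := e11.2.1 ▸ L'.vB (show 0 < 1 by omega) (by omega)
  have hv0A1 : v' 0 ∈ P.C (A 1) := e22.2.1 ▸ L'.vB (show 0 < 2 by omega) (by omega)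
  -- every further clique at `v 0` contains `h`
  have key1 : ∀ d, v 0 ∈ P.C d → d ≠ B 1 → d ≠ B 2 → h ∈ P.C d := by
    intro d hd h1 h2
    have L0 := L.trunc (show 0 ≤ 1 by omega)
    obtain ⟨x, hx1, hx2, hx3, -⟩ := L0.main O2.symm (L.kS (show 1 ≤ 1 by omega))
      (Ne.symm (L.AneB le_rfl (by omega) (by omega) (by omega))) hc hd h1 h2
    exact P.un _ _ _ _ hx3 hhA1 hx2 hhS2 ▸ hx1
  have key2 : ∀ d, v' 0 ∈ P.C d → d ≠ A 2 → d ≠ A 1 → v 1 ∈ P.C d := by
    intro d hd h1 h2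
    have L0 := L'.trunc (show 0 ≤ 1 by omega)
    have hS : k' (0 + 1) ∈ P.S (A 1) := by
      have : k' (0 + 1) = k 1 := e11.2.2
      rw [this]
      exact L.ex 1 le_rfl (by omega)
    have hne : A 1 ≠ A' (0 + 1) := by
      have : A' (0 + 1) = B 2 := e11.1
      rw [this]
      exact L.AneB le_rfl (by omega) (by omega) (by omega)
    have hd1 : d ≠ B' (0 + 1) := by
      have : B' (0 + 1) = A 2 := e11.2.1
      rw [this]
      exact h1
    obtain ⟨x, hx1, hx2, hx3, -⟩ := L0.main O1 hS hne hc hd hd1 h2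
    have : A' (0 + 1) = B 2 := e11.1
    rw [this] at hx3
    exact P.un _ _ _ _ hx3 hv1B2 hx2 hv1SA1 ▸ hx1
  -- the third clique at `v' 0`
  obtain ⟨d', hd1, hd2, hd3⟩ : ∃ d, v' 0 ∈ P.C d ∧ d ≠ A 2 ∧ d ≠ A 1 := by
    by_contra hcon
    push Not at hcon
    have : univ.filter (fun i => v' 0 ∈ P.C i) ⊆ {A 2, A 1} := by
      intro d hd
      rw [mem_filter] at hd
      rw [mem_insert, mem_singleton]
      by_contra h1
      push Not at h1
      exact h1.2 (hcon d hd.2 h1.1)
    have h2 := (card_le_card this).trans card_le_two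
    rw [P.degC] at h2
    omega
  have hd'v := key2 d' hd1 hd2 hd3
  have hv0ne : v' 0 ≠ v 0 := by
    intro h1
    refine (L.co 0 (by omega)).not_adj ⟨A 2, L.kA (by omega) (by omega), ?_⟩
    exact h1 ▸ hv0A2
  have hd'B2 : d' ≠ B 2 := by
    intro h1
    exact hv0ne (P.un _ _ _ _ (h1 ▸ hd1) hv0B2 hv0S' hv0S)
  -- the third clique at `v 1`
  obtain ⟨E, hE1, hE2, hE3⟩ : ∃ d, v 1 ∈ P.C d ∧ d ≠ B 2 ∧ d ≠ d' := by
    by_contra hcon
    push Not at hcon
    have : univ.filter (fun i => v 1 ∈ P.C i) ⊆ {B 2, d'} := by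
      intro d hd
      rw [mem_filter] at hd
      rw [mem_insert, mem_singleton]
      by_contra h1
      push Not at h1
      exact h1.2 (hcon d hd.2 h1.1)
    have h2 := (card_le_card this).trans card_le_two
    rw [P.degC] at h2
    omega
  have hEk0 : E ≠ k0 := fun h1 => hv1K (h1 ▸ hE1)
  obtain ⟨w, hw1, hw2⟩ := P.ex E k0 hEk0
  have hwK : w ∉ P.C k0 := fun h1 => P.disj _ _ h1 hw2
  have hwadj : P.Adj w (k 1) := by
    by_contra h1
    refine T_notS O2.hj ((L.co 1 le_rfl).nbr ⟨E, hw1, hE1⟩ h1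
      (fun h3 => hwK (h3 ▸ L.kK 1 (by omega))) ?_) hw2
    intro h3
    exact T_notS O1.hj hv1S1 (h3 ▸ hw2)
  obtain ⟨t, ht1, ht2⟩ := hwadj
  have htT : t ∈ T P k0 := memT' (L.kK 1 (by omega)) ht2 ht1 hwK
  have hw : w = v' 0 ∨ w = v 0 := by
    obtain ⟨j, hj1, hj2, hj3⟩ := L.allT (by omega) htT
    have : j = 1 ∨ j = 2 := by omega
    rcases this with rfl | rfl
    · rcases hj3 with rfl | rfl
      · exact absurd ht2 (fun h1 => P.disj _ _ h1 (L.ex 1 le_rfl (by omega)))
      · right; exact P.un _ _ _ _ ht1 hv0B1 hw2 hv0S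
    · rcases hj3 with rfl | rfl
      · left; exact P.un _ _ _ _ ht1 hv0A2 hw2 hv0S'
      · exact absurd ht2 (L.kB' (by omega) (by omega))
  rcases hw with hw | hw
  · exfalso
    subst hw
    have hEA2 : E ≠ A 2 := by
      intro h1
      exact (L.co 1 le_rfl).not_adj ⟨A 2, L.kA (by omega) (by omega), h1 ▸ hE1⟩
    have hEA1 : E ≠ A 1 := by
      intro h1
      exact P.disj _ _ (h1 ▸ hE1) hv1SA1
    have hsub : ({E, A 2, A 1, d'} : Finset ι) ⊆ univ.filter (fun i => v' 0 ∈ P.C i) := by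
      intro d hd
      simp only [mem_insert, mem_singleton] at hd
      rw [mem_filter]
      refine ⟨mem_univ _, ?_⟩
      rcases hd with rfl | rfl | rfl | rfl
      · exact hw1
      · exact hv0A2
      · exact hv0A1
      · exact hd1
    have h4 := card_le_card hsub
    rw [P.degC, card_insert_of_notMem, card_insert_of_notMem, card_insert_of_notMem,
      card_singleton] at h4
    · omega
    · simp only [mem_singleton]; exact Ne.symm hd3
    · simp only [mem_insert, mem_singleton, not_or]; exact ⟨hA12.symm, Ne.symm hd2⟩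
    · simp only [mem_insert, mem_singleton, not_or]; exact ⟨hEA2, hEA1, hE3⟩
  · subst hw
    have hEB1 : E ≠ B 1 := fun h1 => P.disj _ _ (h1 ▸ hE1) hv1S1
    have hhE := key1 E hw1 hEB1 hE2
    have hco2 : CoPair P (k 2) h (B 2) E := by
      refine copair_of_subset (L.kB le_rfl (by omega)) hhE
        (fun h1 => hhK (h1 ▸ L.kK 2 (by omega))) ?_
      intro x hx hne
      refine ⟨?_, fun h1 => P.disj _ _ hx (h1 ▸ hhS2)⟩
      rcases L.Bsub (show 2 ≤ 1 + 1 by omega) hx with h1 | ⟨j, hj, rfl⟩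
      · obtain ⟨j, hj, rfl⟩ := L.allK (by omega) h1
        exfalso
        by_cases h2 : j < 2
        · exact L.kB' h2 (by omega) hx
        · have : j = 2 := by omega
          subst this
          exact hne rfl
      · have : j = 0 ∨ j = 1 := by omega
        rcases this with rfl | rfl
        · exact hw1
        · exact hE1
    exact p_le_two (k0 := k0) hco2 hco1 (L.kinj (show 1 < 2 by omega) (by omega)).symm
      (L.kK _ (by omega)) (L.kK _ (by omega))

/-- a critical clique forces `p = 2` or `q = 2` -/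
theorem critical (hc : (T P k0).card ≤ 2 * q - 2) : p = 2 ∨ q = 2 := by
  obtain ⟨n, k, v, A, B, L, hn⟩ := exists_full hc
  have hp := P.hp
  rcases Nat.lt_or_ge n 2 with h1 | h1
  · have : n = 0 ∨ n = 1 := by omega
    rcases this with rfl | rfl
    · right; omega
    · left
      have := final_three hc L (by omega)
      omega
  · left
    have := final_four hc L hn h1
    omega

end Pool.Agent.H51.CC.PSys
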