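import Mathlib

/-! Abstract systems of maximum cliques `C i` and their mates `S i` in a partitionable graph
without weak pairs. -/

namespace Pool.Agent.H51.CC

open Finset

/-- the maximum cliques `C i` and the maximum stable sets `S i` (`S i` is the one disjoint from
`C i`) of a partitionable graph without weak pairs, with `p = α` and `q = ω` -/
structure PSys (V ι : Type*) [Fintype V] [DecidableEq V] [Fintype ι] [DecidableEq ι]
    (p q : ℕ) where
  C : ι → Finset V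
  S : ι → Finset V
  hp : 2 ≤ p
  hq : 2 ≤ q
  cardV : Fintype.card V = p * q + 1
  cardC : ∀ i, (C i).card = q
  cardS : ∀ i, (S i).card = p
  disj : ∀ i x, x ∈ C i → x ∉ S i
  ex : ∀ i j, i ≠ j → ∃ x, x ∈ C i ∧ x ∈ S j
  un : ∀ i j x y, x ∈ C i → y ∈ C i → x ∈ S j → y ∈ S j → x = y
  pex : ∀ u v, u ≠ v → ∃ i, u ∈ C i ∧ v ∈ S i
  pun : ∀ u v i j, u ∈ C i → v ∈ S i → u ∈ C j → v ∈ S j → i = j
  degC : ∀ v, (univ.filter (fun i => v ∈ C i)).card = q
  degS : ∀ v, (univ.filter (fun i => v ∈ S i)).card = p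
  nw : ∀ u v, u ≠ v → (∃ i, u ∈ C i ∧ v ∈ C i) ∨ (∃ i, u ∈ S i ∧ v ∈ S i)
  cl : ∀ D : Finset V, D.card = q → (∀ u ∈ D, ∀ v ∈ D, u ≠ v → ∃ i, u ∈ C i ∧ v ∈ C i) →
    ∃ i, C i = D
  st : ∀ D : Finset V, D.card = p → (∀ u ∈ D, ∀ v ∈ D, u ≠ v → ∃ i, u ∈ S i ∧ v ∈ S i) →
    ∃ i, S i = D

variable {V ι : Type*} [Fintype V] [DecidableEq V] [Fintype ι] [DecidableEq ι] {p q : ℕ}

namespace PSys

variable (P : PSys V ι p q)

/-- the complementary system -/
def dual : PSys V ι q p where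
  C := P.S
  S := P.C
  hp := P.hq
  hq := P.hp
  cardV := by rw [P.cardV, Nat.mul_comm]
  cardC := P.cardS
  cardS := P.cardC
  disj := fun i x h1 h2 => P.disj i x h2 h1
  ex := fun i j hij => by obtain ⟨x, h1, h2⟩ := P.ex j i (Ne.symm hij); exact ⟨x, h2, h1⟩
  un := fun i j x y h1 h2 h3 h4 => P.un j i x y h3 h4 h1 h2
  pex := fun u v h => by obtain ⟨i, h1, h2⟩ := P.pex v u (Ne.symm h); exact ⟨i, h2, h1⟩
  pun := fun u v i j h1 h2 h3 h4 => P.pun v u i j h2 h1 h4 h3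
  degC := P.degS
  degS := P.degC
  nw := fun u v h => (P.nw u v h).symm
  cl := P.st
  st := P.cl

/-- `u` and `v` lie in a common maximum clique -/
def Adj (u v : V) : Prop := ∃ i, u ∈ P.C i ∧ v ∈ P.C i

/-- `u` and `v` lie in a common maximum stable set -/
def Co (u v : V) : Prop := ∃ i, u ∈ P.S i ∧ v ∈ P.S i

variable {P}

theorem Adj.symm {u v : V} (h : P.Adj u v) : P.Adj v u := by
  obtain ⟨i, h1, h2⟩ := h; exact ⟨i, h2, h1⟩

theorem not_co {u v : V} (h : P.Adj u v) (hne : u ≠ v) {j : ι} (hu : u ∈ P.S j) :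
    v ∉ P.S j := by
  intro hv
  obtain ⟨i, h1, h2⟩ := h
  exact hne (P.un i j u v h1 h2 hu hv)

theorem inj {i j : ι} (h : P.C i = P.C j) : i = j := by
  by_contra hne
  obtain ⟨x, h1, h2⟩ := P.ex i j hne
  exact P.disj j x (h ▸ h1) h2

theorem ne_of_memC_memS {i j : ι} {x : V} (h1 : x ∈ P.C i) (h2 : x ∈ P.S j) : i ≠ j := by
  rintro rfl; exact P.disj _ x h1 h2

/-- stable sets whose mates share a vertex are disjoint -/
theorem mates_disjoint {i j : ι} {u v : V} (hi : u ∈ P.C i) (hj : u ∈ P.C j) (h : v ∈ P.S i)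
    (hne : i ≠ j) : v ∉ P.S j := fun h' => hne (P.pun u v i j hi h hj h')

/-- `(a, b)` is a co-critical pair: `C k` and `C l` differ by the exchange of `a` and `b` -/
structure CoPair (P : PSys V ι p q) (a b : V) (k l : ι) : Prop where
  ha : a ∈ P.C k
  hb : b ∈ P.C l
  hab : a ≠ b
  he : (P.C k).erase a = (P.C l).erase b

namespace CoPair

variable {a b : V} {k l : ι}

theorem symm (h : CoPair P a b k l) : CoPair P b a l k := ⟨h.hb, h.ha, h.hab.symm, h.he.symm⟩

theorem mem {x : V} (h : CoPair P a b k l) (hx : x ∈ P.C k) (hxa : x ≠ a) :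
    x ∈ P.C l ∧ x ≠ b := by
  have : x ∈ (P.C l).erase b := h.he ▸ mem_erase.mpr ⟨hxa, hx⟩
  exact ⟨(mem_erase.mp this).2, (mem_erase.mp this).1⟩

theorem hb' (h : CoPair P a b k l) : b ∉ P.C k := fun h' => (h.mem h' h.hab.symm).2 rfl

theorem ne (h : CoPair P a b k l) : k ≠ l := by
  rintro rfl; exact h.hb' h.hb

theorem bS (h : CoPair P a b k l) : b ∈ P.S k := by
  obtain ⟨x, h1, h2⟩ := P.ex l k h.ne.symm
  by_cases hx : x = b
  · exact hx ▸ h2
  · exact absurd h2 (P.disj k x (h.symm.mem h1 hx).1)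

theorem aS (h : CoPair P a b k l) : a ∈ P.S l := h.symm.bS

theorem imp (h : CoPair P a b k l) {j : ι} (hj : j ≠ l) (ha : a ∈ P.S j) : b ∈ P.S j := by
  obtain ⟨x, h1, h2⟩ := P.ex l j hj.symm
  by_cases hx : x = b
  · exact hx ▸ h2
  · have h3 := (h.symm.mem h1 hx)
    exact absurd (P.un k j x a h3.1 h.ha h2 ha) h3.2

theorem not_adj (h : CoPair P a b k l) : ¬ P.Adj a b := by
  intro hadj
  have hc := P.degS a
  have hp := P.hp
  have : ∃ j, j ∈ (univ.filter (fun i => a ∈ P.S i)) ∧ j ≠ l := by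
    by_contra hcon
    push Not at hcon
    have : (univ.filter (fun i => a ∈ P.S i)) ⊆ {l} := fun j hj => mem_singleton.mpr (hcon j hj)
    have := card_le_card this
    rw [card_singleton] at this
    omega
  obtain ⟨j, hj, hjl⟩ := this
  rw [mem_filter] at hj
  exact not_co hadj h.hab hj.2 (h.imp hjl hj.2)

/-- a neighbour of `b` which is not a neighbour of `a` lies in `S l` -/
theorem nbr (h : CoPair P a b k l) {x : V} (hxb : P.Adj x b) (hxa : ¬ P.Adj x a) (hne : x ≠ a)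
    (hneb : x ≠ b) : x ∈ P.S l := by
  rcases P.nw x a hne with h1 | ⟨j, h1, h2⟩
  · exact absurd h1 hxa
  · by_cases hj : j = l
    · exact hj ▸ h1
    · exact absurd (h.imp hj h2) (not_co hxb hneb h1)

/-- a common neighbour outside `C k`, `C l` lies in a clique missing `a` and `b` -/
theorem third (h : CoPair P a b k l) {x : V} (hxa : x ≠ a) (hxb : x ≠ b) (hk : x ∉ P.C k) :
    ∃ t, x ∈ P.C t ∧ a ∉ P.C t ∧ b ∉ P.C t := by
  obtain ⟨t, h1, h2⟩ := P.pex x a hxa
  refine ⟨t, h1, fun h3 => P.disj t a h3 h2, ?_⟩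
  by_cases ht : t = l
  · exfalso
    subst ht
    exact hk (h.symm.mem h1 hxb).1
  · exact fun h3 => P.disj t b h3 (h.imp ht h2)

end CoPair

end PSys

end Pool.Agent.H51.CC
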