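import Pool.Agent.H51.CC.Path

/-! Clique number 3: a co-critical pair forces a critical clique. -/

namespace Pool.Agent.H51.CC.PSys

open Finset

variable {V ι : Type*} [Fintype V] [DecidableEq V] [Fintype ι] [DecidableEq ι] {p : ℕ}
variable {P : PSys V ι p 3} {a b : V} {k l : ι}

theorem star_erase {v : V} {j : ι} (h : v ∈ P.C j) :
    ((univ.filter (fun i => v ∈ P.C i)).erase j).card = 2 := by
  have h1 : j ∈ univ.filter (fun i => v ∈ P.C i) := by
    rw [mem_filter]; exact ⟨mem_univ _, h⟩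
  rw [card_erase_of_mem h1, P.degC]

/-- the other cliques meeting `C k` number at most 4 once some clique other than `C k`
contains `a` and another vertex of `C k` -/
theorem T_le (h : CoPair P a b k l) {i : ι} (hik : i ≠ k) (hai : a ∈ P.C i) {u : V}
    (hu : u ∈ P.C k) (hua : u ≠ a) (hui : u ∈ P.C i) : (T P k).card ≤ 2 * 3 - 2 := by
  obtain ⟨w, hw, hwa, hwu⟩ : ∃ w ∈ P.C k, w ≠ a ∧ w ≠ u := by
    by_contra hcon
    push Not at hcon
    have : P.C k ⊆ {a, u} := by
      intro x hx
      rw [mem_insert, mem_singleton]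
      by_cases h1 : x = a
      · exact Or.inl h1
      · exact Or.inr (hcon x hx h1)
    have := (card_le_card this).trans card_le_two
    rw [P.cardC] at this
    omega
  have hC : P.C k = {a, u, w} := by
    symm
    refine eq_of_subset_of_card_le ?_ ?_
    · intro x hx
      simp only [mem_insert, mem_singleton] at hx
      rcases hx with rfl | rfl | rfl
      · exact h.ha
      · exact hu
      · exact hw
    · rw [P.cardC, card_eq_three.mpr ⟨a, u, w, hua.symm, hwa.symm, hwu.symm, rfl⟩]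
  set Fa := (univ.filter (fun j => a ∈ P.C j)).erase k with hFa
  set Fu := (univ.filter (fun j => u ∈ P.C j)).erase k with hFu
  set Fw := (univ.filter (fun j => w ∈ P.C j)).erase k with hFw
  have ca : Fa.card = 2 := star_erase h.ha
  have cu : Fu.card = 2 := star_erase hu
  have cw : Fw.card = 2 := star_erase hw
  have hsub : T P k ⊆ (Fa ∪ (Fu.erase i)) ∪ (Fw.erase l) := by
    intro j hj
    obtain ⟨hjk, x, hx, hxj⟩ := mem_T.mp hj
    rw [hC] at hx
    simp only [mem_insert, mem_singleton] at hx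
    simp only [mem_union, mem_erase, hFa, hFu, hFw, mem_filter, mem_univ, true_and]
    have hul := (h.mem hu hua).1
    rcases hx with rfl | rfl | rfl
    · exact Or.inl (Or.inl ⟨hjk, hxj⟩)
    · left
      by_cases hji : j = i
      · left; exact ⟨hjk, hji ▸ hai⟩
      · right; exact ⟨hji, hjk, hxj⟩
    · by_cases hjl : j = l
      · left
        subst hjl
        by_cases hji : j = i
        · left; exact ⟨hjk, hji ▸ hai⟩
        · right; exact ⟨hji, hjk, hul⟩
      · right; exact ⟨hjl, hjk, hxj⟩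
  have c1 : (Fu.erase i).card = 1 := by
    rw [card_erase_of_mem (by
      rw [hFu, mem_erase, mem_filter]; exact ⟨hik, mem_univ _, hui⟩), cu]
  have c2 : (Fw.erase l).card = 1 := by
    rw [card_erase_of_mem (by
      rw [hFw, mem_erase, mem_filter]; exact ⟨h.ne.symm, mem_univ _, (h.mem hw hwa).1⟩), cw]
  have h1 := card_le_card hsub
  have h2 := card_union_le (Fa ∪ (Fu.erase i)) (Fw.erase l)
  have h3 := card_union_le Fa (Fu.erase i)
  omega

/-- a neighbour of `a` in a clique `C i ∌ u` for `u ∈ C k`, `u ≠ a`, outside `S k` -/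
theorem exists_x (h : CoPair P a b k l) {i : ι} (hik : i ≠ k) (hai : a ∈ P.C i)
    (hno : ∀ u ∈ P.C k, u ≠ a → u ∉ P.C i) :
    ∃ x, x ∈ P.C i ∧ x ≠ a ∧ x ∉ P.S k ∧ x ∉ P.C k := by
  obtain ⟨w, hw1, hw2⟩ := P.ex i k hik
  have hwa : w ≠ a := fun h1 => P.disj k a h.ha (h1 ▸ hw2)
  obtain ⟨x, hx, hxa, hxw⟩ : ∃ x ∈ P.C i, x ≠ a ∧ x ≠ w := by
    by_contra hcon
    push Not at hcon
    have : P.C i ⊆ {a, w} := by
      intro x hx
      rw [mem_insert, mem_singleton]
      by_cases h1 : x = a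
      · exact Or.inl h1
      · exact Or.inr (hcon x hx h1)
    have := (card_le_card this).trans card_le_two
    rw [P.cardC] at this
    omega
  refine ⟨x, hx, hxa, fun h1 => hxw (P.un i k x w hx hw1 h1 hw2), fun h1 => hno x h1 hxa hx⟩

theorem copair_critical (h : CoPair P a b k l) :
    (T P k).card ≤ 2 * 3 - 2 ∨ (T P l).card ≤ 2 * 3 - 2 := by
  by_contra hcon
  push Not at hcon
  have hA : ∀ i, i ≠ k → a ∈ P.C i → ∀ u ∈ P.C k, u ≠ a → u ∉ P.C i := by
    intro i hik hai u hu hua hui
    exact absurd (T_le h hik hai hu hua hui) (by omega)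
  have hB : ∀ i, i ≠ l → b ∈ P.C i → ∀ u ∈ P.C l, u ≠ b → u ∉ P.C i := by
    intro i hil hbi u hu hub hui
    exact absurd (T_le h.symm hil hbi hu hub hui) (by omega)
  -- the two further cliques at `a` and at `b`
  obtain ⟨i1, i2, hi12, hi⟩ := card_eq_two.mp (star_erase h.ha)
  have hmi : ∀ j, (j ≠ k ∧ a ∈ P.C j) ↔ j = i1 ∨ j = i2 := by
    intro j
    have : j ∈ (univ.filter (fun j => a ∈ P.C j)).erase k ↔ j ∈ ({i1, i2} : Finset ι) := by
      rw [hi]
    simpa [mem_erase] using this
  obtain ⟨hi1k, hai1⟩ := (hmi i1).mpr (Or.inl rfl)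
  obtain ⟨hi2k, hai2⟩ := (hmi i2).mpr (Or.inr rfl)
  obtain ⟨x1, hx1, hx1a, hx1S, hx1K⟩ := exists_x h hi1k hai1 (hA i1 hi1k hai1)
  obtain ⟨x2, hx2, hx2a, hx2S, hx2K⟩ := exists_x h hi2k hai2 (hA i2 hi2k hai2)
  -- `x1`, `x2` are adjacent to `b`
  have hadj : ∀ x i, i ≠ k → x ∈ P.C i → a ∈ P.C i → x ≠ a → x ∉ P.S k → x ∉ P.C k →
      x ≠ b ∧ ∃ j, j ≠ l ∧ b ∈ P.C j ∧ x ∈ P.C j := by
    intro x i hik hxi hai hxa hxS hxK
    have hxb : x ≠ b := by
      rintro rfl
      exact hxS h.bS
    refine ⟨hxb, ?_⟩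
    have : P.Adj x b := by
      by_contra h1
      exact hxS (h.symm.nbr ⟨i, hxi, hai⟩ h1 hxb hxa)
    obtain ⟨j, hj1, hj2⟩ := this
    refine ⟨j, ?_, hj2, hj1⟩
    rintro rfl
    exact hxK (h.symm.mem hj1 hxb).1
  obtain ⟨hx1b, j1, hj1l, hbj1, hx1j⟩ := hadj x1 i1 hi1k hx1 hai1 hx1a hx1S hx1K
  obtain ⟨hx2b, j2, hj2l, hbj2, hx2j⟩ := hadj x2 i2 hi2k hx2 hai2 hx2a hx2S hx2K
  -- every `x` has at most two cliques through `a` or `b`
  have hthree : ∀ x, x ≠ a → x ≠ b → x ∉ P.C k → ∀ i j m, x ∈ P.C i → x ∈ P.C j → x ∈ P.C m →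
      (a ∈ P.C i ∨ b ∈ P.C i) → (a ∈ P.C j ∨ b ∈ P.C j) → (a ∈ P.C m ∨ b ∈ P.C m) →
      i ≠ j → i ≠ m → j ≠ m → False := by
    intro x hxa hxb hxK i j m hi hj hm h1 h2 h3 h4 h5 h6
    obtain ⟨t, ht1, ht2, ht3⟩ := h.third hxa hxb hxK
    have hsub : ({i, j, m, t} : Finset ι) ⊆ univ.filter (fun s => x ∈ P.C s) := by
      intro s hs
      simp only [mem_insert, mem_singleton] at hs
      rw [mem_filter]
      refine ⟨mem_univ _, ?_⟩
      rcases hs with rfl | rfl | rfl | rfl <;> assumption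
    have hc := card_le_card hsub
    have hne : ∀ s, (a ∈ P.C s ∨ b ∈ P.C s) → s ≠ t := by
      rintro s hs rfl
      rcases hs with hs | hs
      · exact ht2 hs
      · exact ht3 hs
    rw [P.degC, card_insert_of_notMem, card_insert_of_notMem, card_insert_of_notMem,
      card_singleton] at hc
    · omega
    · rw [mem_singleton]; exact hne m h3
    · simp only [mem_insert, mem_singleton, not_or]; exact ⟨h6, hne j h2⟩
    · simp only [mem_insert, mem_singleton, not_or]; exact ⟨h4, h5, hne i h1⟩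
  have hab : ∀ s, a ∈ P.C s → b ∈ P.C s → False := fun s h1 h2 => h.not_adj ⟨s, h1, h2⟩
  have hne_ij : ∀ i j, a ∈ P.C i → b ∈ P.C j → i ≠ j := by
    rintro i j h1 h2 rfl
    exact hab i h1 h2
  -- `x1 ∉ C i2`, `x2 ∉ C i1`
  have hx12 : x1 ∉ P.C i2 := fun h1 => hthree x1 hx1a hx1b hx1K i1 i2 j1 hx1 h1 hx1j
    (Or.inl hai1) (Or.inl hai2) (Or.inr hbj1) hi12 (hne_ij _ _ hai1 hbj1) (hne_ij _ _ hai2 hbj1)
  -- the cliques of the partition of `G - x1` at `a` and `b`
  obtain ⟨s, hs1, hs2⟩ := P.pex a x1 (Ne.symm hx1a)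
  have hs : s = i2 := by
    by_cases hsk : s = k
    · exact absurd (hsk ▸ hs2) hx1S
    · rcases (hmi s).mp ⟨hsk, hs1⟩ with h1 | h1
      · subst h1; exact absurd hx1 (fun h2 => P.disj _ _ h2 hs2)
      · exact h1
  subst hs
  obtain ⟨m, hm1, hm2⟩ := P.pex b x1 (Ne.symm hx1b)
  have hml : m ≠ l := by
    rintro rfl
    have h1 : a ∈ P.S m := h.aS
    exact (not_co (P := P) (u := x1) (v := a) ⟨i1, hx1, hai1⟩ hx1a hm2) h1
  have hmj1 : m ≠ j1 := fun h1 => P.disj _ _ (h1 ▸ hx1j) hm2
  -- `x2 ∈ C m`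
  have hx2m : x2 ∈ P.C m := by
    by_cases hm : m = j2
    · exact hm ▸ hx2j
    · exfalso
      -- then `j2 = j1`, as `b` has only two further cliques
      have hj12 : j1 = j2 := by
        by_contra hne
        have hsub : ({l, m, j1, j2} : Finset ι) ⊆ univ.filter (fun s => b ∈ P.C s) := by
          intro s hs
          simp only [mem_insert, mem_singleton] at hs
          rw [mem_filter]
          refine ⟨mem_univ _, ?_⟩
          rcases hs with rfl | rfl | rfl | rfl
          · exact h.hb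
          · exact hm1
          · exact hbj1
          · exact hbj2
        have hc := card_le_card hsub
        rw [P.degC, card_insert_of_notMem, card_insert_of_notMem, card_insert_of_notMem,
          card_singleton] at hc
        · omega
        · rw [mem_singleton]; exact hne
        · simp only [mem_insert, mem_singleton, not_or]; exact ⟨hmj1, hm⟩
        · simp only [mem_insert, mem_singleton, not_or]; exact ⟨hml.symm, hj1l.symm, hj2l.symm⟩
      -- `C j1 = {b, x1, x2}` misses `S l`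
      subst hj12
      have hx12ne : x1 ≠ x2 := fun h1 => hx12 (h1 ▸ hx2)
      obtain ⟨z, hz1, hz2⟩ := P.ex j1 l hj1l
      have hzb : z ≠ b := fun h1 => P.disj l b h.hb (h1 ▸ hz2)
      have hz : z = x1 ∨ z = x2 := by
        have hC : P.C j1 = {b, x1, x2} := by
          symm
          refine eq_of_subset_of_card_le ?_ ?_
          · intro x hx
            simp only [mem_insert, mem_singleton] at hx
            rcases hx with rfl | rfl | rfl
            · exact hbj1
            · exact hx1j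
            · exact hx2j
          · rw [P.cardC, card_eq_three.mpr ⟨b, x1, x2, hx1b.symm, hx2b.symm, hx12ne, rfl⟩]
        rw [hC] at hz1
        simp only [mem_insert, mem_singleton] at hz1
        rcases hz1 with h1 | h1 | h1
        · exact absurd h1 hzb
        · exact Or.inl h1
        · exact Or.inr h1
      have haS : a ∈ P.S l := h.aS
      rcases hz with rfl | rfl
      · exact (not_co (P := P) (u := z) (v := a) ⟨i1, hx1, hai1⟩ hx1a hz2) haS
      · exact (not_co (P := P) (u := z) (v := a) ⟨s, hx2, hai2⟩ hx2a hz2) haS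
  have hfin := P.pun x2 x1 s m hx2 hs2 hx2m hm2
  exact hab m (hfin ▸ hai2) hm1

theorem copair_three (h : CoPair P a b k l) : p = 2 := by
  rcases copair_critical h with h1 | h1
  · rcases critical h1 with h2 | h2
    · exact h2
    · omega
  · rcases critical h1 with h2 | h2
    · exact h2
    · omega

end Pool.Agent.H51.CC.PSys
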